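import Pool.Agent.Helper21.MT7.Defs
import Pool.Agent.Helper40.MT.Stmts

/-!
# Distinct Jordan blocks at several primes: exact statements of the modules (T7)
Proofs: /team-store/mt7_helper21.md
-/

set_option autoImplicit false

open NumberField MU

namespace MT

/-! ## A. Arithmetic -/

/-- the Frobenius elements at all primes of an open subgroup `H` -/
def IsFrobH (F : Type) [Field F] [NumberField F] (H : Subgroup (Gal F)) (d : ℕ) (r : ℕ → ℕ)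
    (x : ∀ p, Fin (r p) → H) (k : ∀ p, Fin (r p) → ℕ) (𝔔 : ∀ p, Fin (r p) → Ideal (Zb F)) : Prop :=
  ∀ p : ℕ, p.Prime → ∑ i, k p i = d ∧
    (∀ i, Over p (𝔔 p i) ∧ 1 ≤ k p i ∧ CongPow (𝔔 p i) (p ^ k p i) ((x p i : H) : Gal F)) ∧
    ∀ 𝔓 : Ideal (Zb F), Over p 𝔓 → ∃ (i : Fin (r p)) (g : H), ∀ y z : Zb F,
      (z : AlgebraicClosure F) = (g : Gal F) (y : AlgebraicClosure F) → (y ∈ 𝔓 ↔ z ∈ 𝔔 p i)

/-- BAL7: the balance of determinants for open subgroups (from IDX, TFG, TRG, PRO). -/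
def ST_BAL7 : Prop :=
  ∀ (F : Type) [Field F] [NumberField F] (S : Finset ℕ), (∀ p ∈ S, p.Prime) →
    ∀ (H : Subgroup (Gal F)), IsOpen (H : Set (Gal F)) →
    ∃ (d : ℕ) (r : ℕ → ℕ) (x : ∀ p, Fin (r p) → H) (k : ∀ p, Fin (r p) → ℕ)
      (𝔔 : ∀ p, Fin (r p) → Ideal (Zb F)), 1 ≤ d ∧ IsFrobH F H d r x k 𝔔 ∧
      ∀ (n w : ℕ) (h : Fin n → ℕ) (M : QMot F S n w h) (l : ℕ) [Fact l.Prime] (m : ℕ)
        (B : Matrix (Fin n) (Fin m) ℚ_[l]) (A : H → Matrix (Fin m) (Fin m) ℚ_[l]),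
        IsSub ((mat (M.ρ l)).comp H.subtype) B A → ∃ e : ℕ, 1 ≤ e ∧
          ∀ p : ℕ, p.Prime → p ≠ l →
            (∏ i, (A (x p i)).det) ^ (2 * e) * (p : ℚ_[l]) ^ (e * (d * (m * w))) = 1

/-- CYI: the cyclotomic character has infinite order on the inertia groups over `l`. -/
def ST_CYI : Prop :=
  ∀ (F : Type) [Field F] [NumberField F] (l : ℕ) [Fact l.Prime] (H : Subgroup (Gal F)),
    IsOpen (H : Set (Gal F)) → ∀ 𝔓 : Ideal (Zb F), Over l 𝔓 → ∀ D : ℕ, 1 ≤ D →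
      ∃ σ ∈ H, CongPow 𝔓 1 σ ∧ (cyc l F σ) ^ D ≠ 1

/-- LIN2: the stable subspaces of a unipotent matrix `t` with Jordan blocks of pairwise distinct
sizes `i ∈ Λ`, normalised by `X`. -/
def ST_LIN2 : Prop :=
  ∀ (K : Type) [Field K] [CharZero K] (n m Q : ℕ), 2 ≤ Q → ∀ (Λ : Finset ℕ) (c : K)
    (ψ t X : Matrix (Fin n) (Fin n) K) (B : Matrix (Fin n) (Fin m) K)
    (C : Matrix (Fin m) (Fin n) K) (s a : Matrix (Fin m) (Fin m) K),
    ψ.det ≠ 0 → c ≠ 0 → t.transpose * ψ * t = ψ → X.transpose * ψ * X = c • ψ →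
    X * t = t ^ Q * X → (∀ k : ℕ, ((t - 1) ^ k).rank = ∑ i ∈ Λ, (i - k)) →
    C * B = 1 → t * B = B * s → X * B = B * a →
    ∃ f : ℕ → ℕ, (∀ i ∈ Λ, f i ≤ i) ∧ ∑ i ∈ Λ, f i = m ∧
      a.det ^ 2 = c ^ m * (Q : K) ^ (∑ i ∈ Λ, f i * (i - f i)) ∧
      ((∀ i ∈ Λ, f i = 0 ∨ f i = i) → 0 < m → B.transpose * ψ * B ≠ 0)

/-- IRR7: strong irreducibility (from BAL7, CYI, LIN2). -/
def ST_IRR7 : Prop :=
  ∀ (F : Type) [Field F] [NumberField F] (S : Finset ℕ), (∀ p ∈ S, p.Prime) →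
    ∀ (n w : ℕ) (h : Fin n → ℕ) (M : QMot F S n w h) (l : ℕ) [Fact l.Prime], M.Amp l →
      ∀ H : Subgroup (Gal F), IsOpen (H : Set (Gal F)) → IsIrr ((mat (M.ρ l)).comp H.subtype)

/-! ## B. Linear algebra -/

/-- `G` is strongly irreducible: there are no proper subspaces with finitely many translates. -/
def SIrr {K : Type} [Field K] {n : ℕ} (G : Subgroup (Matrix.GeneralLinearGroup (Fin n) K)) : Prop :=
  ∀ U : Submodule K (Fin n → K),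
    {U' : Submodule K (Fin n → K) | ∃ g ∈ G,
      U' = U.map (Matrix.mulVecLin (g : Matrix (Fin n) (Fin n) K))}.Finite → U = ⊥ ∨ U = ⊤

/-- SI7: strong irreducibility in terms of subspaces (from IRR7). -/
def ST_SI7 : Prop :=
  ∀ (F : Type) [Field F] [NumberField F] (S : Finset ℕ), (∀ p ∈ S, p.Prime) →
    ∀ (n w : ℕ) (h : Fin n → ℕ) (M : QMot F S n w h) (l : ℕ) [Fact l.Prime], M.Amp l →
      SIrr (M.ρ l).range

/-- CLIF: Lie algebras normalised by a strongly irreducible group. -/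
def ST_CLIF : Prop :=
  ∀ (K : Type) [Field K] (n : ℕ) (G : Subgroup (Matrix.GeneralLinearGroup (Fin n) K))
    (a : Submodule K (Matrix (Fin n) (Fin n) K)) (N : Matrix (Fin n) (Fin n) K) (Λ : Finset ℕ),
    SIrr G → (∀ g ∈ G, ∀ A ∈ a, (g : Matrix (Fin n) (Fin n) K) * A *
      ((g⁻¹ : Matrix.GeneralLinearGroup (Fin n) K) : Matrix (Fin n) (Fin n) K) ∈ a) →
    N ∈ a → (∀ k : ℕ, (N ^ k).rank = ∑ i ∈ Λ, (i - k)) →
    ∀ U : Submodule K (Fin n → K), (∀ A ∈ a, ∀ v ∈ U, A.mulVec v ∈ U) → U = ⊥ ∨ U = ⊤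

/-- LOG7: the logarithm of a unipotent matrix. -/
def ST_LOG7 : Prop :=
  ∀ (K₀ : Type) [Field K₀] [CharZero K₀] (n : ℕ)
    (X : Subgroup (Matrix.GeneralLinearGroup (Fin n) K₀)), ∀ t ∈ X,
      ((t : Matrix (Fin n) (Fin n) K₀) - 1) ^ n = 0 →
      ∃ N ∈ LieZ X, (∀ k : ℕ, (N ^ k).rank = (((t : Matrix (Fin n) (Fin n) K₀) - 1) ^ k).rank) ∧
        (((t : Matrix (Fin n) (Fin n) K₀) - 1) ^ 2 = 0 →
          N = (t : Matrix (Fin n) (Fin n) K₀) - 1) ∧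
        ∀ ψ : Matrix (Fin n) (Fin n) K₀, (t : Matrix (Fin n) (Fin n) K₀).transpose * ψ *
          (t : Matrix (Fin n) (Fin n) K₀) = ψ → N.transpose * ψ + ψ * N = 0

/-- PS1: transvections and strongly irreducible groups. -/
def ST_PS1 : Prop :=
  ∀ (K : Type) [Field K] [CharZero K] (n : ℕ) (ψ T : Matrix (Fin n) (Fin n) K)
    (a : Submodule K (Matrix (Fin n) (Fin n) K)) (G : Subgroup (Matrix.GeneralLinearGroup (Fin n) K)),
    ψ.det ≠ 0 → ψ.transpose = -ψ → (∀ A ∈ a, ∀ B ∈ a, A * B - B * A ∈ a) → SIrr G →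
    (∀ g ∈ G, ∃ c : K, (g : Matrix (Fin n) (Fin n) K).transpose * ψ *
      (g : Matrix (Fin n) (Fin n) K) = c • ψ) →
    (∀ g ∈ G, ∀ A ∈ a, (g : Matrix (Fin n) (Fin n) K) * A *
      ((g⁻¹ : Matrix.GeneralLinearGroup (Fin n) K) : Matrix (Fin n) (Fin n) K) ∈ a) →
    T ∈ a → T.transpose * ψ + ψ * T = 0 → T.rank = 1 →
    ∀ A : Matrix (Fin n) (Fin n) K, A.transpose * ψ + ψ * A = 0 → A ∈ a

/-- PS2: reflections (from helper8's `psr_even`). -/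
def ST_PS2 : Prop :=
  ∀ (K : Type) [Field K] [CharZero K] (n : ℕ) (ψ : Matrix (Fin n) (Fin n) K)
    (g : Matrix.GeneralLinearGroup (Fin n) K) (a : Submodule K (Matrix (Fin n) (Fin n) K)),
    ψ.det ≠ 0 → ψ.transpose = ψ → (∀ A ∈ a, ∀ B ∈ a, A * B - B * A ∈ a) →
    (∀ A ∈ a, A.transpose * ψ + ψ * A = 0) →
    (∀ U : Submodule K (Fin n → K), (∀ A ∈ a, ∀ v ∈ U, A.mulVec v ∈ U) → U = ⊥ ∨ U = ⊤) →
    (g : Matrix (Fin n) (Fin n) K).transpose * ψ * (g : Matrix (Fin n) (Fin n) K) = ψ →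
    ((g : Matrix (Fin n) (Fin n) K) - 1).rank = 1 →
    (∀ A ∈ a, (g : Matrix (Fin n) (Fin n) K) * A *
      ((g⁻¹ : Matrix.GeneralLinearGroup (Fin n) K) : Matrix (Fin n) (Fin n) K) ∈ a) →
    ∀ A : Matrix (Fin n) (Fin n) K, A.transpose * ψ + ψ * A = 0 → A ∈ a

/-- FUL7: the Lie algebra is large (from SI7, CLIF, LOG7, ZAR, PS1, PS2). -/
def ST_FUL7 : Prop :=
  ∀ (F : Type) [Field F] [NumberField F] (S : Finset ℕ), (∀ p ∈ S, p.Prime) →
    ∀ (n w : ℕ) (h : Fin n → ℕ) (M : QMot F S n w h) (l : ℕ) [Fact l.Prime], 3 ≤ n → M.Amp l →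
      (∃ g : Gal F, (mat (M.ρ l) g - 1).rank = 1) →
      ∀ H : Subgroup (Gal F), IsOpen (H : Set (Gal F)) → ∀ A : Matrix (Fin n) (Fin n) ℚ_[l],
        A.transpose * bas ℚ_[l] M.ψ + bas ℚ_[l] M.ψ * A = 0 → A ∈ LieZ (H.map (M.ρ l))

/-- SIM7: similitudes of symmetric forms in even dimension. -/
def ST_SIM7 : Prop :=
  ∀ (K₀ : Type) [Field K₀] [CharZero K₀] (n : ℕ) (ψ : Matrix (Fin n) (Fin n) K₀)
    (X : Subgroup (Matrix.GeneralLinearGroup (Fin n) K₀)), ψ.det ≠ 0 → Even n →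
    (∀ x ∈ X, ∃ c : K₀, (x : Matrix (Fin n) (Fin n) K₀).transpose * ψ *
      (x : Matrix (Fin n) (Fin n) K₀) = c • ψ) →
    {c : K₀ | ∃ x ∈ X, (x : Matrix (Fin n) (Fin n) K₀).transpose * ψ *
      (x : Matrix (Fin n) (Fin n) K₀) = c • ψ}.Infinite →
    (∀ (K : Type) [Field K] [Algebra K₀ K] (g : Matrix.GeneralLinearGroup (Fin n) K),
      (g : Matrix (Fin n) (Fin n) K).transpose * ψ.map (algebraMap K₀ K) *
        (g : Matrix (Fin n) (Fin n) K) = ψ.map (algebraMap K₀ K) →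
      (g : Matrix (Fin n) (Fin n) K).det = 1 →
        g ∈ ZC (X : Set (Matrix.GeneralLinearGroup (Fin n) K₀)) K) →
    ∀ (K : Type) [Field K] [Algebra K₀ K] (g : Matrix.GeneralLinearGroup (Fin n) K) (c : K),
      (g : Matrix (Fin n) (Fin n) K).transpose * ψ.map (algebraMap K₀ K) *
        (g : Matrix (Fin n) (Fin n) K) = c • ψ.map (algebraMap K₀ K) →
      (g : Matrix (Fin n) (Fin n) K).det = c ^ (n / 2) →
          g ∈ ZC (X : Set (Matrix.GeneralLinearGroup (Fin n) K₀)) K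

/-- HDG7: the Mumford-Tate group is contained in the connected group of similitudes. -/
def ST_HDG7 : Prop :=
  ∀ (F : Type) [Field F] [NumberField F] (S : Finset ℕ) (n w : ℕ) (h : Fin n → ℕ)
    (M : PMot F S n w h) (K : Type) [Field K] [CharZero K], 1 ≤ n → M.Gsigma K ⊆ SimC w M.ψ K

/-- G07: the identity component of the `l`-adic monodromy group is contained in the connected group
of similitudes. -/
def ST_G07 : Prop :=
  ∀ (F : Type) [Field F] [NumberField F] (S : Finset ℕ) (n w : ℕ) (h : Fin n → ℕ)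
    (M : PMot F S n w h) (l : ℕ) [Fact l.Prime] (K : Type) [Field K] [Algebra ℚ_[l] K], 1 ≤ n →
      M.Gl0 l K ⊆ SimC w M.ψ K

/-! ## C. The theorem -/

/-- MAIN7: the theorem. -/
def ST_MAIN7 : Prop :=
  ∀ (F : Type) [Field F] [NumberField F] (S : Finset ℕ), (∀ p ∈ S, p.Prime) →
    ∀ (n w : ℕ) (h : Fin n → ℕ) (M : QMot F S n w h) (l : ℕ) [Fact l.Prime], M.Amp l →
      (∀ H : Subgroup (Gal F), IsOpen (H : Set (Gal F)) →
        IsIrr ((mat (M.ρ l)).comp H.subtype)) ∧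
      (0 < w → 3 ≤ n → (∃ g : Gal F, (mat (M.ρ l) g - 1).rank = 1) →
        ∀ (K : Type) [Field K] [Algebra ℚ_[l] K],
          (∀ H : Subgroup (Gal F), IsOpen (H : Set (Gal F)) →
            SimC w M.ψ K ⊆ ZC (M.ρ l '' H) K ∧ ZC (M.ρ l '' H) K ⊆ Sim M.ψ K) ∧
          M.Gl l K = M.Gmot K ∧ M.Gmot K = Sim M.ψ K ∧ M.Gl0 l K = SimC w M.ψ K ∧
          M.Gsigma K ⊆ M.Gl0 l K ∧
          ((∀ (a b : ℕ) (t : Tensor n a b ℚ), M.IsHodge t → ∃ H : Subgroup (Gal F),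
            IsOpen (H : Set (Gal F)) ∧ ∀ g ∈ H, act (M.ρ l g) (t.base ℚ_[l]) = t.base ℚ_[l]) →
              M.Gl0 l K = M.Gsigma K))

end MT
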