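import Pool.Agent.Helper40.MT.Defs

/-!
# Polarised motives with distinct Jordan blocks at several primes
-/

set_option autoImplicit false

open NumberField MU

namespace MT

/-- Polarised pure motives over `F`, with the `p`-adic Hodge theory of the restrictions to open
subgroups of the Galois group (that is, of the base changes of the motive to finite extensions). -/
structure QMot (F : Type) [Field F] [NumberField F] (S : Finset ℕ) (n w : ℕ) (h : Fin n → ℕ)
    extends PMot F S n w h where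
  hodgeTate' : ∀ (l : ℕ) [Fact l.Prime] (H : Subgroup (Gal F)), IsOpen (H : Set (Gal F)) →
    ∀ (m : ℕ) (B : Matrix (Fin n) (Fin m) ℚ_[l]) (A : H → Matrix (Fin m) (Fin m) ℚ_[l]),
      IsSub ((mat (ρ l)).comp H.subtype) B A → ∃ e : ℕ, 1 ≤ e ∧
        ∀ 𝔓 : Ideal (integralClosure ℤ (AlgebraicClosure F)), Over l 𝔓 →
        ∃ J : Finset (Fin n), J.card = m ∧ ∀ σ : H, CongPow 𝔓 1 (σ : Gal F) →
          ((A σ).det * (((cyc l F (σ : Gal F) : ℤ_[l]ˣ) : ℤ_[l]) : ℚ_[l]) ^ (∑ j ∈ J, h j)) ^ e = 1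

variable {F : Type} [Field F] [NumberField F] {S : Finset ℕ} {n w : ℕ} {h : Fin n → ℕ}

/-- The monodromy of the `l`-adic realisation at the prime `𝔓` over `p` has Jordan blocks of the
pairwise distinct sizes `i ∈ Λ`: an inertia element `τ` acts by a unipotent matrix with these
blocks, and Frobenius elements `g` conjugate it to a power. -/
def PMot.JTyp (M : PMot F S n w h) (l : ℕ) [Fact l.Prime] (p : ℕ)
    (𝔓 : Ideal (integralClosure ℤ (AlgebraicClosure F))) (Λ : Finset ℕ) : Prop :=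
  ∃ τ : Gal F, CongPow 𝔓 1 τ ∧
    (∀ k : ℕ, ((mat (M.ρ l) τ - 1) ^ k).rank = ∑ i ∈ Λ, (i - k)) ∧
    ∀ (k : ℕ) (g : Gal F), 1 ≤ k → CongPow 𝔓 (p ^ k) g →
      M.ρ l (g * τ * g⁻¹) = (M.ρ l τ) ^ (p ^ k)

/-- At every place over `p` the Jordan blocks of the monodromy have pairwise distinct sizes. -/
def PMot.Dis (M : PMot F S n w h) (l : ℕ) [Fact l.Prime] (p : ℕ) : Prop :=
  ∀ 𝔓 : Ideal (integralClosure ℤ (AlgebraicClosure F)), Over p 𝔓 → ∃ Λ, M.JTyp l p 𝔓 Λ

/-- The number `m` is not the dimension of a subspace stable under an open subgroup: either it is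
not a sum of sizes of different Jordan blocks at some place `𝔓` over a prime `p` as above, or there
are no `m` of the Hodge types with average `w / 2`. -/
def PMot.Excl (M : PMot F S n w h) (l : ℕ) [Fact l.Prime] (m : ℕ) : Prop :=
  (∃ (p : ℕ) (𝔓 : Ideal (integralClosure ℤ (AlgebraicClosure F))) (Λ : Finset ℕ),
    p.Prime ∧ p ≠ l ∧ M.Dis l p ∧ Over p 𝔓 ∧ M.JTyp l p 𝔓 Λ ∧ ∀ T ⊆ Λ, ∑ i ∈ T, i ≠ m) ∨
  ∀ J : Finset (Fin n), J.card = m → 2 * ∑ j ∈ J, h j ≠ m * w

/-- The motives of the theorem: at all places over some prime the Jordan blocks have pairwise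
distinct sizes, and every `0 < m < n` is excluded. -/
def PMot.Amp (M : PMot F S n w h) (l : ℕ) [Fact l.Prime] : Prop :=
  (∃ p : ℕ, p.Prime ∧ p ≠ l ∧ M.Dis l p) ∧ ∀ m : ℕ, 0 < m → m < n → M.Excl l m

/-- The identity component of the group of similitudes of `ψ` (which is symmetric for even `w` and
alternating for odd `w`). -/
def SimC {n : ℕ} (w : ℕ) (ψ : Matrix (Fin n) (Fin n) ℚ) (K : Type) [Field K] :
    Set (Matrix.GeneralLinearGroup (Fin n) K) :=
  {g | ∃ c : K, (g : Matrix (Fin n) (Fin n) K).transpose * bas K ψ *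
    (g : Matrix (Fin n) (Fin n) K) = c • bas K ψ ∧
      (Even w → Even n → (g : Matrix (Fin n) (Fin n) K).det = c ^ (n / 2))}

end MT
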