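import Pool.Agent.Helper21.MT7.IrrA
import Pool.Agent.Helper43.MU.Sub

/-!
# IRR7: strong irreducibility
-/

set_option autoImplicit false
set_option maxHeartbeats 1000000

open NumberField MU

namespace MT

variable {F : Type} [Field F] [NumberField F] {S : Finset ℕ} {n w : ℕ} {h : Fin n → ℕ}

theorem bas_det {K : Type} [Field K] [CharZero K] (ψ : Matrix (Fin n) (Fin n) ℚ)
    (hψ : ψ.det ≠ 0) : (bas K ψ).det ≠ 0 := by
  have h1 : bas K ψ = (algebraMap ℚ K).mapMatrix ψ := by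
    ext i j
    simp [bas]
  rw [h1, ← RingHom.map_det]
  simpa using hψ

/-- the situation at one place -/
theorem key_place (lin2 : ST_LIN2) (hcyc : ST_CYC) (M : QMot F S n w h) (l : ℕ) [Fact l.Prime]
    (H : Subgroup (Gal F)) (e : ℕ) (he : 1 ≤ e) (hHe : ∀ g : Gal F, g ^ e ∈ H) (m : ℕ)
    (B : Matrix (Fin n) (Fin m) ℚ_[l]) (A : H → Matrix (Fin m) (Fin m) ℚ_[l])
    (hs : IsSub ((mat (M.ρ l)).comp H.subtype) B A) (p : ℕ) (hp : p.Prime) (hpl : p ≠ l)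
    (𝔔 : Ideal (Zb F)) (h𝔔 : Over p 𝔔) (k : ℕ) (hk : 1 ≤ k) (x : H)
    (hx : CongPow 𝔔 (p ^ k) (x : Gal F)) (Λ : Finset ℕ) (hJ : M.JTyp l p 𝔔 Λ) :
    ∃ f : ℕ → ℕ, (∀ i ∈ Λ, f i ≤ i) ∧ ∑ i ∈ Λ, f i = m ∧
      (A x).det ^ 2 * (p : ℚ_[l]) ^ (k * (m * w)) =
        (p : ℚ_[l]) ^ (k * ∑ i ∈ Λ, f i * (i - f i)) ∧
      ((∀ i ∈ Λ, f i = 0 ∨ f i = i) → 0 < m → B.transpose * bas ℚ_[l] M.ψ * B ≠ 0) := by
  obtain ⟨τ, hτ, hr, hconj⟩ := hJ
  obtain ⟨⟨C, hCB⟩, hA⟩ := hs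
  have hp0 : (p : ℚ_[l]) ≠ 0 := by
    rw [Nat.cast_ne_zero]
    exact hp.ne_zero
  have hcx : (((cyc l F (x : Gal F) : ℤ_[l]ˣ) : ℤ_[l]) : ℚ_[l]) = (p : ℚ_[l]) ^ k := by
    rw [hcyc F F l p hp hpl 𝔔 h𝔔 k x hx]
    push_cast
    rfl
  have hcτ : (((cyc l F τ : ℤ_[l]ˣ) : ℤ_[l]) : ℚ_[l]) = 1 := by
    rw [hcyc F F l p hp hpl 𝔔 h𝔔 0 τ (by rw [pow_zero]; exact hτ)]
    simp
  have hρτ : (mat (M.ρ l) τ).transpose * bas ℚ_[l] M.ψ * mat (M.ρ l) τ = bas ℚ_[l] M.ψ := by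
    have := M.ψ_gal l τ
    rwa [hcτ, one_pow, one_smul] at this
  have hτe : (mat (M.ρ l) (τ ^ e)) = (mat (M.ρ l) τ) ^ e := map_pow _ _ _
  have hpow : ∀ j : ℕ, ((mat (M.ρ l) τ) ^ j).transpose * bas ℚ_[l] M.ψ * (mat (M.ρ l) τ) ^ j =
      bas ℚ_[l] M.ψ := by
    intro j
    induction j with
    | zero => rw [pow_zero, Matrix.transpose_one, Matrix.one_mul, Matrix.mul_one]
    | succ j ih =>
      rw [pow_succ, Matrix.transpose_mul]
      calc (mat (M.ρ l) τ).transpose * ((mat (M.ρ l) τ) ^ j).transpose * bas ℚ_[l] M.ψ *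
            ((mat (M.ρ l) τ) ^ j * mat (M.ρ l) τ) =
            (mat (M.ρ l) τ).transpose * (((mat (M.ρ l) τ) ^ j).transpose * bas ℚ_[l] M.ψ *
              (mat (M.ρ l) τ) ^ j) * mat (M.ρ l) τ := by simp only [Matrix.mul_assoc]
        _ = bas ℚ_[l] M.ψ := by rw [ih, hρτ]
  have hρx : (mat (M.ρ l) x).transpose * bas ℚ_[l] M.ψ * mat (M.ρ l) x =
      ((p : ℚ_[l]) ^ (k * w))⁻¹ • bas ℚ_[l] M.ψ := by
    have h1 := M.ψ_gal l x
    rw [hcx, ← pow_mul] at h1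
    conv_rhs => rw [← h1]
    rw [smul_smul, inv_mul_cancel₀ (pow_ne_zero _ hp0), one_smul]
  have hXt : mat (M.ρ l) x * (mat (M.ρ l) τ) ^ e =
      ((mat (M.ρ l) τ) ^ e) ^ (p ^ k) * mat (M.ρ l) x := by
    have h1 := hconj k x hk hx
    have h2 : M.ρ l x * M.ρ l τ = (M.ρ l τ) ^ (p ^ k) * M.ρ l x := by
      rw [← h1, map_mul, map_mul, map_inv, inv_mul_cancel_right]
    have h3 : mat (M.ρ l) x * mat (M.ρ l) τ = (mat (M.ρ l) τ) ^ (p ^ k) * mat (M.ρ l) x := by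
      have := congrArg (fun z : Matrix.GeneralLinearGroup (Fin n) ℚ_[l] =>
        (z : Matrix (Fin n) (Fin n) ℚ_[l])) h2
      simpa [mat] using this
    have h4 : SemiconjBy (mat (M.ρ l) x) (mat (M.ρ l) τ) ((mat (M.ρ l) τ) ^ (p ^ k)) := h3
    have h5 := (h4.pow_right e).eq
    rw [h5, ← pow_mul, ← pow_mul, mul_comm]
  have hψ0 := bas_det (K := ℚ_[l]) M.ψ M.ψ_det
  have h2p : 2 ≤ p ^ k := le_trans hp.two_le (Nat.le_self_pow (by omega) p)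
  obtain ⟨f, hf1, hf2, hf3, hf4⟩ := lin2 ℚ_[l] n m (p ^ k) h2p Λ ((p : ℚ_[l]) ^ (k * w))⁻¹
    (bas ℚ_[l] M.ψ) ((mat (M.ρ l) τ) ^ e) (mat (M.ρ l) x) B C (A ⟨τ ^ e, hHe τ⟩) (A x) hψ0
    (inv_ne_zero (pow_ne_zero _ hp0)) (hpow e) hρx hXt (rank_pow_sub _ Λ hr e he) hCB
    (by rw [← hτe]; exact hA ⟨τ ^ e, hHe τ⟩) (hA x)
  refine ⟨f, hf1, hf2, ?_, hf4⟩
  rw [hf3]
  push_cast
  rw [← pow_mul, inv_pow, ← pow_mul, mul_right_comm, show k * (m * w) = k * w * m by ring,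
    inv_mul_cancel₀ (pow_ne_zero _ hp0), one_mul]

/-- stable subspaces are sums of Jordan blocks -/
theorem key_all (bal : ST_BAL7) (lin2 : ST_LIN2) (hcyc : ST_CYC) (hS : ∀ p ∈ S, p.Prime)
    (M : QMot F S n w h) (l : ℕ) [Fact l.Prime] (H : Subgroup (Gal F))
    (hH : IsOpen (H : Set (Gal F))) (m : ℕ)
    (B : Matrix (Fin n) (Fin m) ℚ_[l]) (A : H → Matrix (Fin m) (Fin m) ℚ_[l])
    (hs : IsSub ((mat (M.ρ l)).comp H.subtype) B A) (p : ℕ) (hp : p.Prime) (hpl : p ≠ l)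
    (hD : M.Dis l p) (𝔓 : Ideal (Zb F)) (h𝔓 : Over p 𝔓) (Λ : Finset ℕ) (hJ : M.JTyp l p 𝔓 Λ) :
    (∃ T ⊆ Λ, ∑ i ∈ T, i = m) ∧ (0 < m → B.transpose * bas ℚ_[l] M.ψ * B ≠ 0) := by
  classical
  have hp0 : (p : ℚ_[l]) ≠ 0 := by
    rw [Nat.cast_ne_zero]
    exact hp.ne_zero
  obtain ⟨H₁, hH₁, -, -, e, he, hHe⟩ := exists_core H hH
  have hHe' : ∀ g : Gal F, g ^ e ∈ H := fun g => hH₁ (hHe g)
  obtain ⟨d, r, x, k, 𝔔, hd, hFr, hbal⟩ := bal F S hS H hH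
  obtain ⟨e', he', hprod⟩ := hbal n w h M l m B A hs
  obtain ⟨hsum, hFr1, hFr2⟩ := hFr p hp
  obtain ⟨i₀, g₀, hg₀⟩ := hFr2 𝔓 h𝔓
  have hJ₀ : M.JTyp l p (𝔔 p i₀) Λ := jtyp_conj M.toPMot l p 𝔓 (𝔔 p i₀) Λ g₀ hg₀ hJ
  have hΛ : ∀ i, ∃ Λ' : Finset ℕ, M.JTyp l p (𝔔 p i) Λ' ∧ (i = i₀ → Λ' = Λ) := by
    intro i
    by_cases hi : i = i₀
    · exact ⟨Λ, by rw [hi]; exact hJ₀, fun _ => rfl⟩
    · obtain ⟨Λ', hΛ'⟩ := hD (𝔔 p i) (hFr1 i).1
      exact ⟨Λ', hΛ', fun h => absurd h hi⟩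
  choose Λc hΛ1 hΛ2 using hΛ
  have hkey := fun i => key_place lin2 hcyc M l H e he hHe' m B A hs p hp hpl (𝔔 p i) (hFr1 i).1
    (k p i) (hFr1 i).2.1 (x p i) (hFr1 i).2.2 (Λc i) (hΛ1 i)
  choose f hf1 hf2 hf3 hf4 using hkey
  -- the product formula
  have h1 : (∏ i, (A (x p i)).det) ^ 2 * (p : ℚ_[l]) ^ (d * (m * w)) =
      (p : ℚ_[l]) ^ (∑ i, k p i * ∑ j ∈ Λc i, f i j * (j - f i j)) := by
    rw [← hsum, Finset.sum_mul, ← Finset.prod_pow_eq_pow_sum, ← Finset.prod_pow,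
      ← Finset.prod_mul_distrib, ← Finset.prod_pow_eq_pow_sum]
    exact Finset.prod_congr rfl (fun i _ => hf3 i)
  have h2 := hprod p hp hpl
  have h3 : ((p : ℚ_[l]) ^ (∑ i, k p i * ∑ j ∈ Λc i, f i j * (j - f i j))) ^ e' = 1 := by
    rw [← h1, mul_pow, ← pow_mul, ← pow_mul, show d * (m * w) * e' = e' * (d * (m * w)) by ring]
    exact h2
  have h4 : (∑ i, k p i * ∑ j ∈ Λc i, f i j * (j - f i j)) = 0 := by
    rw [← pow_mul] at h3
    have h5 : p ^ ((∑ i, k p i * ∑ j ∈ Λc i, f i j * (j - f i j)) * e') = 1 := by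
      exact_mod_cast h3
    rw [Nat.pow_eq_one] at h5
    rcases h5 with h5 | h5
    · exact absurd h5 hp.one_lt.ne'
    · rcases Nat.mul_eq_zero.mp h5 with h6 | h6
      · exact h6
      · omega
  have h5 : ∀ i, ∀ j ∈ Λc i, f i j = 0 ∨ f i j = j := by
    intro i j hj
    have h6 := Finset.sum_eq_zero_iff.mp h4 i (Finset.mem_univ i)
    rcases Nat.mul_eq_zero.mp h6 with h7 | h7
    · have := (hFr1 i).2.1
      omega
    · have h8 := Finset.sum_eq_zero_iff.mp h7 j hj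
      have h9 := hf1 i j hj
      rcases Nat.mul_eq_zero.mp h8 with h10 | h10
      · exact Or.inl h10
      · right
        omega
  have hΛ0 : Λc i₀ = Λ := hΛ2 i₀ rfl
  constructor
  · refine ⟨Λ.filter (fun j => f i₀ j ≠ 0), Finset.filter_subset _ _, ?_⟩
    rw [← hf2 i₀, hΛ0, Finset.sum_filter]
    apply Finset.sum_congr rfl
    intro j hj
    rcases h5 i₀ j (by rw [hΛ0]; exact hj) with h6 | h6
    · rw [if_neg (by rw [not_not]; exact h6), h6]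
    · by_cases h7 : f i₀ j = 0
      · rw [if_neg (by rw [not_not]; exact h7), h7]
      · rw [if_pos h7, h6]
  · exact hf4 i₀ (h5 i₀)

theorem sub_hom {G K : Type} [Group G] [Field K] {n m : ℕ} (r : G →* Matrix (Fin n) (Fin n) K)
    (B : Matrix (Fin n) (Fin m) K) (A : G → Matrix (Fin m) (Fin m) K) (h : IsSub r B A) (g : G) :
    A g * A g⁻¹ = 1 := by
  obtain ⟨⟨C, hC⟩, hA⟩ := h
  have h1 : B * (A g * A g⁻¹) = B := by
    rw [← Matrix.mul_assoc, ← hA, Matrix.mul_assoc, ← hA, ← Matrix.mul_assoc, ← map_mul,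
      mul_inv_cancel, map_one, Matrix.one_mul]
  calc A g * A g⁻¹ = C * B * (A g * A g⁻¹) := by rw [hC, Matrix.one_mul]
    _ = 1 := by rw [Matrix.mul_assoc, h1, hC]

/-- the form is non-degenerate on stable subspaces -/
theorem key_nondeg (bal : ST_BAL7) (lin2 : ST_LIN2) (hcyc : ST_CYC) (hS : ∀ p ∈ S, p.Prime)
    (M : QMot F S n w h) (l : ℕ) [Fact l.Prime] (H : Subgroup (Gal F))
    (hH : IsOpen (H : Set (Gal F))) (m : ℕ)
    (B : Matrix (Fin n) (Fin m) ℚ_[l]) (A : H → Matrix (Fin m) (Fin m) ℚ_[l])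
    (hs : IsSub ((mat (M.ρ l)).comp H.subtype) B A) (p : ℕ) (hp : p.Prime) (hpl : p ≠ l)
    (hD : M.Dis l p) (𝔓 : Ideal (Zb F)) (h𝔓 : Over p 𝔓) (Λ : Finset ℕ) (hJ : M.JTyp l p 𝔓 Λ) :
    (B.transpose * bas ℚ_[l] M.ψ * B).det ≠ 0 ∧ ∀ σ : H,
      (A σ).det ^ 2 * (((cyc l F (σ : Gal F) : ℤ_[l]ˣ) : ℤ_[l]) : ℚ_[l]) ^ (w * m) = 1 := by
  set G : Matrix (Fin m) (Fin m) ℚ_[l] := B.transpose * bas ℚ_[l] M.ψ * B with hG
  have hAG : ∀ σ : H, (((cyc l F (σ : Gal F) : ℤ_[l]ˣ) : ℤ_[l]) : ℚ_[l]) ^ w •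
      ((A σ).transpose * G * A σ) = G := by
    intro σ
    have h1 := M.ψ_gal l σ
    have h2 : mat (M.ρ l) σ * B = B * A σ := hs.2 σ
    have h3 : (A σ).transpose * G * A σ = B.transpose * ((mat (M.ρ l) σ).transpose *
        bas ℚ_[l] M.ψ * mat (M.ρ l) σ) * B := by
      rw [hG]
      calc (A σ).transpose * (B.transpose * bas ℚ_[l] M.ψ * B) * A σ =
          (B * A σ).transpose * bas ℚ_[l] M.ψ * (B * A σ) := by
            rw [Matrix.transpose_mul]; simp only [Matrix.mul_assoc]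
        _ = _ := by rw [← h2, Matrix.transpose_mul]; simp only [Matrix.mul_assoc]
    rw [h3, ← Matrix.smul_mul, ← Matrix.mul_smul, h1]
  have hdet : G.det ≠ 0 := by
    intro h0
    obtain ⟨v, hv, hGv⟩ := Matrix.exists_mulVec_eq_zero_iff.mpr h0
    let W : Submodule ℚ_[l] (Fin n → ℚ_[l]) := (LinearMap.ker G.mulVecLin).map B.mulVecLin
    have hW : ∀ g : H, ∀ u ∈ W, (((mat (M.ρ l)).comp H.subtype) g).mulVec u ∈ W := by
      rintro g _ ⟨u, hu, rfl⟩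
      refine ⟨(A g).mulVec u, ?_, ?_⟩
      · have h1 : G.mulVec u = 0 := hu
        rw [← hAG g, Matrix.smul_mulVec, ← Matrix.mulVec_mulVec, ← Matrix.mulVec_mulVec] at h1
        have hc0 : (((cyc l F (g : Gal F) : ℤ_[l]ˣ) : ℤ_[l]) : ℚ_[l]) ^ w ≠ 0 := by
          apply pow_ne_zero
          have h5 := (cyc l F (g : Gal F)).ne_zero
          exact fun h6 => h5 (Subtype.ext h6)
        have h2 := (smul_eq_zero.mp h1).resolve_left hc0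
        have h3 : (A g⁻¹).transpose * (A g).transpose = 1 := by
          rw [← Matrix.transpose_mul, sub_hom _ B A hs g, Matrix.transpose_one]
        have h4 : (A g⁻¹).transpose.mulVec ((A g).transpose.mulVec (G.mulVec ((A g).mulVec u))) =
            0 := by rw [h2, Matrix.mulVec_zero]
        rw [Matrix.mulVec_mulVec, h3, Matrix.one_mulVec] at h4
        exact h4
      · change B.mulVec ((A g).mulVec u) = (((mat (M.ρ l)).comp H.subtype) g).mulVec (B.mulVec u)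
        rw [Matrix.mulVec_mulVec, Matrix.mulVec_mulVec, hs.2 g]
    obtain ⟨B', A', hs', hrange⟩ := isSub_of_stable ((mat (M.ρ l)).comp H.subtype) W hW
    have hpos : 0 < Module.finrank ℚ_[l] W := by
      rw [Nat.pos_iff_ne_zero, Ne, Submodule.finrank_eq_zero]
      intro h1
      have h2 : B.mulVec v ∈ W := ⟨v, hGv, rfl⟩
      rw [h1, Submodule.mem_bot] at h2
      obtain ⟨C, hC⟩ := hs.1
      have h3 : C.mulVec (B.mulVec v) = 0 := by rw [h2, Matrix.mulVec_zero]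
      rw [Matrix.mulVec_mulVec, hC, Matrix.one_mulVec] at h3
      exact hv h3
    have h1 := (key_all bal lin2 hcyc hS M l H hH _ B' A' hs' p hp hpl hD 𝔓 h𝔓 Λ hJ).2 hpos
    apply h1
    have hzero : ∀ u v : Fin (Module.finrank ℚ_[l] W) → ℚ_[l],
        dotProduct u ((B'.transpose * bas ℚ_[l] M.ψ * B').mulVec v) = 0 := by
      intro u v
      have hu : B'.mulVec u ∈ W := hrange.le ⟨u, rfl⟩
      have hv : B'.mulVec v ∈ W := hrange.le ⟨v, rfl⟩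
      obtain ⟨u', hu', hu2⟩ := hu
      obtain ⟨v', hv', hv2⟩ := hv
      have h2 : ∀ {a : ℕ} (D : Matrix (Fin n) (Fin a) ℚ_[l]) (x y : Fin a → ℚ_[l]),
          dotProduct x ((D.transpose * bas ℚ_[l] M.ψ * D).mulVec y) =
          dotProduct (D.mulVec x) ((bas ℚ_[l] M.ψ).mulVec (D.mulVec y)) := by
        intro a D x y
        rw [Matrix.dotProduct_mulVec, Matrix.dotProduct_mulVec, Matrix.dotProduct_mulVec,
          ← Matrix.vecMul_transpose, Matrix.vecMul_vecMul, Matrix.vecMul_vecMul, Matrix.mul_assoc]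
      have hu3 : B.mulVec u' = B'.mulVec u := hu2
      have hv3 : B.mulVec v' = B'.mulVec v := hv2
      rw [h2, ← hu3, ← hv3, ← h2, ← hG]
      have h3 : G.mulVec v' = 0 := hv'
      rw [h3, dotProduct_zero]
    ext i j
    have h2 := hzero (Pi.single i 1) (Pi.single j 1)
    rw [Matrix.mulVec_single_one, single_dotProduct, one_mul] at h2
    exact h2
  refine ⟨hdet, ?_⟩
  intro σ
  have h1 := congrArg Matrix.det (hAG σ)
  rw [Matrix.det_smul, Matrix.det_mul, Matrix.det_mul, Matrix.det_transpose, Fintype.card_fin,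
    ← pow_mul] at h1
  apply mul_right_cancel₀ hdet
  rw [one_mul]
  calc (A σ).det ^ 2 * (((cyc l F (σ : Gal F) : ℤ_[l]ˣ) : ℤ_[l]) : ℚ_[l]) ^ (w * m) * G.det =
      (((cyc l F (σ : Gal F) : ℤ_[l]ˣ) : ℤ_[l]) : ℚ_[l]) ^ (w * m) *
        ((A σ).det * G.det * (A σ).det) := by ring
    _ = G.det := h1

theorem st_IRR7 (bal : ST_BAL7) (cyi : ST_CYI) (lin2 : ST_LIN2) (hcyc : ST_CYC) (fre : ST_FRE) :
    ST_IRR7 := by
  intro F _ _ S hS n w h M l _ hAmp H hH m B A hs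
  obtain ⟨⟨p₀, hp₀, hp₀l, hD₀⟩, hex⟩ := hAmp
  by_contra hcon
  push Not at hcon
  obtain ⟨hm0, hmn⟩ := hcon
  have hmle : m ≤ n := by
    obtain ⟨⟨C, hC⟩, -⟩ := hs
    have h1 : (C * B).rank = m := by
      rw [hC, Matrix.rank_one, Fintype.card_fin]
    have h2 := Matrix.rank_mul_le_left C B
    have h3 := Matrix.rank_le_width C
    omega
  rcases hex m (by omega) (by omega) with h1 | h1
  · obtain ⟨p, 𝔓, Λ, hp, hpl, hD, h𝔓, hJ, hT⟩ := h1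
    obtain ⟨T, hTΛ, hTm⟩ := (key_all bal lin2 hcyc hS M l H hH m B A hs p hp hpl hD 𝔓 h𝔓 Λ hJ).1
    exact hT T hTΛ hTm
  · obtain ⟨𝔓₀, h𝔓₀, -⟩ := (fre F p₀ hp₀).1
    obtain ⟨Λ₀, hJ₀⟩ := hD₀ 𝔓₀ h𝔓₀
    have h2 := (key_nondeg bal lin2 hcyc hS M l H hH m B A hs p₀ hp₀ hp₀l hD₀ 𝔓₀ h𝔓₀ Λ₀ hJ₀).2
    obtain ⟨e, he, hHT⟩ := M.hodgeTate' l H hH m B A hs
    obtain ⟨𝔓, h𝔓, -⟩ := (fre F l Fact.out).1
    obtain ⟨J, hJ, hHT2⟩ := hHT 𝔓 h𝔓
    have h3 := h1 J hJ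
    -- the cyclotomic character has finite order on inertia at `𝔓`
    have h4 : ∀ σ ∈ H, CongPow 𝔓 1 σ →
        (cyc l F σ) ^ (2 * (∑ j ∈ J, h j) * e) = (cyc l F σ) ^ (w * m * e) := by
      intro σ hσ hσ2
      have h5 := h2 ⟨σ, hσ⟩
      have h6 := hHT2 ⟨σ, hσ⟩ hσ2
      have h7 : (((cyc l F σ : ℤ_[l]ˣ) : ℤ_[l]) : ℚ_[l]) ^ (2 * (∑ j ∈ J, h j) * e) =
          (((cyc l F σ : ℤ_[l]ˣ) : ℤ_[l]) : ℚ_[l]) ^ (w * m * e) := by
        have hA0 : (A ⟨σ, hσ⟩).det ^ (2 * e) ≠ 0 := by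
          apply pow_ne_zero
          intro h0
          rw [h0] at h5
          simp at h5
        apply mul_left_cancel₀ hA0
        have h8 : (A ⟨σ, hσ⟩).det ^ (2 * e) *
            (((cyc l F σ : ℤ_[l]ˣ) : ℤ_[l]) : ℚ_[l]) ^ (2 * (∑ j ∈ J, h j) * e) = 1 := by
          calc (A ⟨σ, hσ⟩).det ^ (2 * e) *
            (((cyc l F σ : ℤ_[l]ˣ) : ℤ_[l]) : ℚ_[l]) ^ (2 * (∑ j ∈ J, h j) * e) =
            (((A ⟨σ, hσ⟩).det * (((cyc l F σ : ℤ_[l]ˣ) : ℤ_[l]) : ℚ_[l]) ^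
              (∑ j ∈ J, h j)) ^ e) ^ 2 := by ring
            _ = 1 := by rw [h6, one_pow]
        have h9 : (A ⟨σ, hσ⟩).det ^ (2 * e) *
            (((cyc l F σ : ℤ_[l]ˣ) : ℤ_[l]) : ℚ_[l]) ^ (w * m * e) = 1 := by
          calc (A ⟨σ, hσ⟩).det ^ (2 * e) *
            (((cyc l F σ : ℤ_[l]ˣ) : ℤ_[l]) : ℚ_[l]) ^ (w * m * e) =
            ((A ⟨σ, hσ⟩).det ^ 2 *
              (((cyc l F σ : ℤ_[l]ˣ) : ℤ_[l]) : ℚ_[l]) ^ (w * m)) ^ e := by ring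
            _ = 1 := by rw [h5, one_pow]
        rw [h8, h9]
      apply Units.ext
      apply Subtype.ext
      push_cast
      exact h7
    have hne : 2 * (∑ j ∈ J, h j) * e ≠ w * m * e := by
      intro h5
      apply h3
      rw [mul_comm m w]
      exact Nat.eq_of_mul_eq_mul_right (by omega) h5
    rcases lt_or_gt_of_ne hne with h5 | h5
    · obtain ⟨σ, hσ, hσ2, hσ3⟩ := cyi F l H hH 𝔓 h𝔓
        (w * m * e - 2 * (∑ j ∈ J, h j) * e) (by omega)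
      apply hσ3
      have h6 := h4 σ hσ hσ2
      rw [← Nat.add_sub_cancel' h5.le, pow_add] at h6
      exact (mul_eq_left.mp h6.symm)
    · obtain ⟨σ, hσ, hσ2, hσ3⟩ := cyi F l H hH 𝔓 h𝔓
        (2 * (∑ j ∈ J, h j) * e - w * m * e) (by omega)
      apply hσ3
      have h6 := h4 σ hσ hσ2
      rw [← Nat.add_sub_cancel' h5.le, pow_add] at h6
      exact (mul_eq_left.mp h6)

end MT
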