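import Pool.Agent.Helper21.MT7.Stmts
import Pool.Agent.Helper40.MT.MainA

/-!
# Preliminaries for strong irreducibility
-/

set_option autoImplicit false

open NumberField MU

namespace MT

theorem pow_sub_one_unit {K R : Type*} [Field K] [Ring R] [Algebra K R] (t : R) (k : ℕ)
    (hnil : IsNilpotent (t - 1)) (hk : (k : K) ≠ 0) :
    ∃ E : R, t ^ k - 1 = (t - 1) * E ∧ IsUnit E ∧ Commute (t - 1) E := by
  have hpow : ∀ k : ℕ, ∃ E : R, t ^ k - 1 = (t - 1) * E ∧ Commute (t - 1) E := by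
    intro k
    refine ⟨∑ i ∈ Finset.range k, t ^ i, ?_, ?_⟩
    · rw [mul_geom_sum]
    · apply Commute.sum_right
      intro i _
      exact ((Commute.refl t).sub_left (Commute.one_left t)).pow_right i
  choose E hE hEc using hpow
  have hc : Commute (t - 1) (∑ i ∈ Finset.range k, t ^ i) := by
    apply Commute.sum_right
    intro i _
    exact ((Commute.refl t).sub_left (Commute.one_left t)).pow_right i
  refine ⟨∑ i ∈ Finset.range k, t ^ i, by rw [mul_geom_sum], ?_, hc⟩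
  have h1 : ∑ i ∈ Finset.range k, t ^ i =
      algebraMap K R k + (t - 1) * ∑ i ∈ Finset.range k, E i := by
    rw [Finset.mul_sum]
    have h1 : algebraMap K R k = ∑ i ∈ Finset.range k, 1 := by
      rw [Finset.sum_const, Finset.card_range, map_natCast, nsmul_one]
    rw [h1, ← Finset.sum_add_distrib]
    apply Finset.sum_congr rfl
    intro i _
    rw [← hE i]
    abel
  rw [h1]
  apply IsNilpotent.isUnit_add_left_of_commute
  · apply Commute.isNilpotent_mul_right _ hnil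
    apply Commute.sum_right
    intro i _
    exact hEc i
  · exact (isUnit_iff_ne_zero.mpr hk).map (algebraMap K R)
  · exact (Algebra.commutes _ _).symm

theorem rank_pow_sub {K : Type*} [Field K] [CharZero K] {n : ℕ} (t : Matrix (Fin n) (Fin n) K)
    (Λ : Finset ℕ) (hr : ∀ k : ℕ, ((t - 1) ^ k).rank = ∑ i ∈ Λ, (i - k)) (e : ℕ) (he : 1 ≤ e)
    (k : ℕ) : ((t ^ e - 1) ^ k).rank = ∑ i ∈ Λ, (i - k) := by
  have hnil : IsNilpotent (t - 1) := by
    refine ⟨∑ i ∈ Λ, i, ?_⟩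
    have h0 : ∑ i ∈ Λ, (i - ∑ i ∈ Λ, i) = 0 := by
      apply Finset.sum_eq_zero
      intro i hi
      have h2 : i ≤ ∑ i ∈ Λ, i := Finset.single_le_sum (f := fun i => i)
        (fun _ _ => Nat.zero_le _) hi
      omega
    have h1 := hr (∑ i ∈ Λ, i)
    rw [h0] at h1
    unfold Matrix.rank at h1
    rw [Submodule.finrank_eq_zero, LinearMap.range_eq_bot] at h1
    rw [← Matrix.toLin'_apply'] at h1
    exact (map_eq_zero_iff _ (Matrix.toLin' (R := K)).injective).mp h1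
  have he2 : (e : K) ≠ 0 := by
    rw [Nat.cast_ne_zero]
    omega
  obtain ⟨E, hE, hu, hc⟩ := pow_sub_one_unit t e hnil he2
  rw [hE, hc.mul_pow, Matrix.rank_mul_eq_left_of_isUnit_det, hr]
  rw [← Matrix.isUnit_iff_isUnit_det]
  exact hu.pow k

variable {F : Type} [Field F] [NumberField F] {S : Finset ℕ} {n w : ℕ} {h : Fin n → ℕ}

theorem jtyp_conj (M : PMot F S n w h) (l : ℕ) [Fact l.Prime] (p : ℕ) (𝔓 𝔔 : Ideal (Zb F))
    (Λ : Finset ℕ) (g : Gal F) (hg : ∀ y z : Zb F,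
      (z : AlgebraicClosure F) = g (y : AlgebraicClosure F) → (y ∈ 𝔓 ↔ z ∈ 𝔔))
    (hJ : M.JTyp l p 𝔓 Λ) : M.JTyp l p 𝔔 Λ := by
  obtain ⟨τ, h1, h2, h3⟩ := hJ
  have hP : 𝔓 = tp g 𝔔 := by
    ext x
    exact hg x (sm g x) rfl
  have hQ : 𝔔 = tp g⁻¹ 𝔓 := by
    rw [hP, tp_tp, mul_inv_cancel]
    ext x
    have h0 : sm (1 : Gal F) x = x := sm_one x
    constructor
    · intro hx
      change sm (1 : Gal F) x ∈ 𝔔
      rw [h0]
      exact hx
    · intro hx
      change sm (1 : Gal F) x ∈ 𝔔 at hx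
      rw [h0] at hx
      exact hx
  refine ⟨g * τ * g⁻¹, ?_, ?_, ?_⟩
  · have h4 := congPow_conj 𝔓 1 τ g⁻¹ h1
    rw [inv_inv, ← hQ] at h4
    exact h4
  · intro k
    rw [← h2 k]
    have h4 : mat (M.ρ l) (g * τ * g⁻¹) - 1 =
        mat (M.ρ l) g * (mat (M.ρ l) τ - 1) * mat (M.ρ l) g⁻¹ := by
      have h0 : mat (M.ρ l) g * mat (M.ρ l) g⁻¹ = 1 := by
        rw [← map_mul, mul_inv_cancel, map_one]
      rw [map_mul, map_mul, mul_sub, sub_mul, mul_one, h0]
    have h5 : mat (M.ρ l) g⁻¹ * mat (M.ρ l) g = 1 := by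
      rw [← map_mul, inv_mul_cancel, map_one]
    have h5' : mat (M.ρ l) g * mat (M.ρ l) g⁻¹ = 1 := by
      rw [← map_mul, mul_inv_cancel, map_one]
    have h6 : ∀ k : ℕ, (mat (M.ρ l) g * (mat (M.ρ l) τ - 1) * mat (M.ρ l) g⁻¹) ^ k =
        mat (M.ρ l) g * (mat (M.ρ l) τ - 1) ^ k * mat (M.ρ l) g⁻¹ := by
      intro k
      induction k with
      | zero => rw [pow_zero, pow_zero, mul_one, h5']
      | succ k ih =>
        rw [pow_succ, ih, pow_succ]
        have : mat (M.ρ l) g * (mat (M.ρ l) τ - 1) ^ k * mat (M.ρ l) g⁻¹ *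
            (mat (M.ρ l) g * (mat (M.ρ l) τ - 1) * mat (M.ρ l) g⁻¹) =
            mat (M.ρ l) g * (mat (M.ρ l) τ - 1) ^ k * (mat (M.ρ l) g⁻¹ * mat (M.ρ l) g) *
              (mat (M.ρ l) τ - 1) * mat (M.ρ l) g⁻¹ := by
          simp only [mul_assoc]
        rw [this, h5, mul_one, mul_assoc (mat (M.ρ l) g)]
    have hu1 : IsUnit (mat (M.ρ l) g⁻¹).det := by
      rw [← Matrix.isUnit_iff_isUnit_det]
      exact ⟨M.ρ l g⁻¹, rfl⟩
    have hu2 : IsUnit (mat (M.ρ l) g).det := by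
      rw [← Matrix.isUnit_iff_isUnit_det]
      exact ⟨M.ρ l g, rfl⟩
    rw [h4, h6 k, Matrix.rank_mul_eq_left_of_isUnit_det _ _ hu1,
      Matrix.rank_mul_eq_right_of_isUnit_det _ _ hu2]
  · intro k x hk hx
    have h4 : CongPow 𝔓 (p ^ k) (g⁻¹ * x * g : Gal F) := by
      have := congPow_conj 𝔔 (p ^ k) x g hx
      rw [← hP] at this
      exact this
    have h5 := h3 k _ hk h4
    have h6 : x * (g * τ * g⁻¹) * x⁻¹ = g * (g⁻¹ * x * g * τ * (g⁻¹ * x * g)⁻¹) * g⁻¹ := by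
      group
    rw [h6, map_mul, map_mul, h5, map_mul, map_mul]
    rw [map_inv, ← conj_pow]

end MT
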