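import Pool.Agent.Helper21.MT7.LinE
import Pool.Agent.Helper21.MT7.Stmts

/-!
# LIN2: stable subspaces of a unipotent matrix with pairwise distinct Jordan blocks
-/

set_option autoImplicit false

open NumberField MU

namespace MT

open Module

theorem st_LIN2 : ST_LIN2 := by
  intro K _ _ n m Q hQ Λ c ψ t X B C s a hψ hc ht hX hXt hr hCB hs ha
  -- the linear maps
  let tl : Module.End K (Fin n → K) := Matrix.toLinAlgEquiv' t
  let Xl : Module.End K (Fin n → K) := Matrix.toLinAlgEquiv' X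
  let b : (Fin n → K) →ₗ[K] (Fin n → K) →ₗ[K] K := Matrix.toLinearMap₂' K ψ
  have hbv : ∀ u v : Fin n → K, b u v = dotProduct u (ψ.mulVec v) := by
    intro u v
    exact Matrix.toLinearMap₂'_apply' ψ u v
  have htl : ∀ v, tl v = t.mulVec v := fun v => rfl
  have hXl : ∀ v, Xl v = X.mulVec v := fun v => rfl
  have hdot : ∀ (P R : Matrix (Fin n) (Fin n) K) (u v : Fin n → K),
      dotProduct (P.mulVec u) (ψ.mulVec (R.mulVec v)) = dotProduct u ((P.transpose * ψ * R).mulVec v) := by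
    intro P R u v
    rw [Matrix.dotProduct_mulVec, Matrix.dotProduct_mulVec, Matrix.dotProduct_mulVec,
      ← Matrix.vecMul_transpose, Matrix.vecMul_vecMul, Matrix.vecMul_vecMul, Matrix.mul_assoc]
  have hb : ∀ v, (∀ u, b u v = 0) → v = 0 := by
    intro v hv
    have h1 : ψ.mulVec v = 0 := by
      funext i
      have h2 := hv (Pi.single i 1)
      rw [hbv, single_dotProduct, one_mul] at h2
      exact h2
    exact Matrix.eq_zero_of_mulVec_eq_zero hψ h1
  have htb : ∀ u v, b (tl u) (tl v) = b u v := by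
    intro u v
    rw [hbv, hbv, htl, htl, hdot, ht]
  have hXb : ∀ u v, b (Xl u) (Xl v) = c * b u v := by
    intro u v
    rw [hbv, hbv, hXl, hXl, hdot, hX, Matrix.smul_mulVec, dotProduct_smul, smul_eq_mul]
  have hXt' : Xl * tl = tl ^ Q * Xl := by
    have h1 : Xl * tl = Matrix.toLinAlgEquiv' (X * t) := (map_mul _ _ _).symm
    have h2 : tl ^ Q * Xl = Matrix.toLinAlgEquiv' (t ^ Q * X) := by
      rw [map_mul, map_pow]
    rw [h1, h2, hXt]
  have hr' : ∀ k : ℕ, finrank K (LinearMap.range ((tl - 1) ^ k)) = ∑ i ∈ Λ, (i - k) := by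
    intro k
    rw [← hr k]
    have h1 : (tl - 1) ^ k = Matrix.toLinAlgEquiv' ((t - 1) ^ k) := by
      rw [map_pow, map_sub, map_one]
    rw [h1]
    rfl
  -- the subspace
  let Bl : (Fin m → K) →ₗ[K] (Fin n → K) := B.mulVecLin
  let U : Submodule K (Fin n → K) := LinearMap.range Bl
  have hBl : ∀ v, Bl v = B.mulVec v := fun v => rfl
  have hBinj : Function.Injective Bl := by
    intro u v huv
    have h1 : C.mulVec (B.mulVec u) = C.mulVec (B.mulVec v) := by
      rw [← hBl, ← hBl, huv]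
    rw [Matrix.mulVec_mulVec, Matrix.mulVec_mulVec, hCB, Matrix.one_mulVec, Matrix.one_mulVec] at h1
    exact h1
  have hUt : ∀ u ∈ U, tl u ∈ U := by
    rintro _ ⟨v, rfl⟩
    refine ⟨s.mulVec v, ?_⟩
    rw [hBl, hBl, htl, Matrix.mulVec_mulVec, Matrix.mulVec_mulVec, hs]
  have hUX : U ≤ U.comap Xl := by
    rintro _ ⟨v, rfl⟩
    refine ⟨a.mulVec v, ?_⟩
    rw [hBl, hBl, hXl, Matrix.mulVec_mulVec, Matrix.mulVec_mulVec, ha]
  have hdim : finrank K U = m := by
    have h1 : finrank K U = finrank K (Fin m → K) := LinearMap.finrank_range_of_inj hBinj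
    rw [h1, Module.finrank_fin_fun]
  have hdet : dR Xl U = a.det := by
    rw [dR_eq Xl U hUX]
    let e : (Fin m → K) ≃ₗ[K] U := LinearEquiv.ofInjective Bl hBinj
    have h1 : Xl.restrict hUX = ((e : (Fin m → K) →ₗ[K] U) ∘ₗ (Matrix.toLin' a) ∘ₗ
        (e.symm : U →ₗ[K] (Fin m → K))) := by
      apply LinearMap.ext
      intro u
      obtain ⟨v, rfl⟩ := e.surjective u
      apply Subtype.ext
      simp only [LinearMap.coe_comp, LinearEquiv.coe_coe, Function.comp_apply,
        LinearEquiv.symm_apply_apply, Matrix.toLin'_apply]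
      change X.mulVec (B.mulVec v) = B.mulVec (a.mulVec v)
      rw [Matrix.mulVec_mulVec, Matrix.mulVec_mulVec, ha]
    rw [h1, LinearMap.det_conj, LinearMap.det_toLin']
  have hq : (Q : K) ≠ 0 := by
    have : (Q : K) ≠ ((0 : ℕ) : K) := by
      rw [Ne, Nat.cast_inj]
      omega
    rwa [Nat.cast_zero] at this
  obtain ⟨f, hf1, hf2, hf3, hf4⟩ := lin2_core b hb tl Xl htb Λ hr' Q hq c hc hXt' hXb U hUt hUX
  rw [hdim] at hf2 hf3 hf4
  rw [hdet] at hf3
  refine ⟨f, hf1, hf2, hf3, ?_⟩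
  intro h1 h2 h3
  obtain ⟨u, ⟨x, rfl⟩, v, ⟨y, rfl⟩, h4⟩ := hf4 h1 h2
  apply h4
  rw [hbv, hBl, hBl]
  have h5 : dotProduct (B.mulVec x) (ψ.mulVec (B.mulVec y)) =
      dotProduct x ((B.transpose * ψ * B).mulVec y) := by
    rw [Matrix.dotProduct_mulVec, Matrix.dotProduct_mulVec, Matrix.dotProduct_mulVec,
      ← Matrix.vecMul_transpose, Matrix.vecMul_vecMul, Matrix.vecMul_vecMul, Matrix.mul_assoc]
  rw [h5, h3, Matrix.zero_mulVec, dotProduct_zero]

end MT
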