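import Mathlib

/-!
# Determinants of restrictions along a flag
-/

set_option autoImplicit false

namespace MT

open Module

variable {K V : Type*} [Field K] [AddCommGroup V] [Module K V] [FiniteDimensional K V]

/-- the determinant of the restriction of `X` to a stable subspace -/
noncomputable def dR (X : V →ₗ[K] V) (W : Submodule K V) : K :=
  open Classical in if h : W ≤ W.comap X then LinearMap.det (X.restrict h) else 0

omit [FiniteDimensional K V] in
theorem dR_eq (X : V →ₗ[K] V) (W : Submodule K V) (h : W ≤ W.comap X) :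
    dR X W = LinearMap.det (X.restrict h) := by
  unfold dR
  rw [dif_pos h]

omit [FiniteDimensional K V] in
theorem dR_bot (X : V →ₗ[K] V) : dR X ⊥ = 1 := by
  rw [dR_eq X ⊥ bot_le]
  have h1 : X.restrict (show (⊥ : Submodule K V) ≤ (⊥ : Submodule K V).comap X from bot_le) =
      LinearMap.id := LinearMap.ext fun v => Subsingleton.elim _ _
  rw [h1, LinearMap.det_id]

theorem dR_step (X : V →ₗ[K] V) (A B : Submodule K V) (hAB : A ≤ B) (hA : A ≤ A.comap X)
    (hB : B ≤ B.comap X) (μ : K) (h : ∀ v ∈ B, X v - μ • v ∈ A) :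
    dR X B = dR X A * μ ^ (finrank K B - finrank K A) := by
  rw [dR_eq X B hB, dR_eq X A hA]
  set A' : Submodule K B := A.comap B.subtype with hA'
  set e : B →ₗ[K] B := X.restrict hB with he
  have hee : A' ≤ A'.comap e := by
    intro v hv
    exact hA hv
  rw [LinearMap.det_eq_det_mul_det A' e hee]
  have h1 : A'.mapQ A' e hee = μ • LinearMap.id := by
    ext v
    simp only [LinearMap.coe_comp, Function.comp_apply, Submodule.mkQ_apply, Submodule.mapQ_apply,
      LinearMap.smul_apply, LinearMap.id_coe, id_eq]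
    rw [← Submodule.Quotient.mk_smul, Submodule.Quotient.eq]
    exact h v v.2
  have h2 : finrank K A' = finrank K A :=
    LinearEquiv.finrank_eq (Submodule.comapSubtypeEquivOfLe hAB)
  have h3 : finrank K (B ⧸ A') = finrank K B - finrank K A := by
    have h4 := Submodule.finrank_quotient_add_finrank A'
    omega
  rw [h1, LinearMap.det_smul, LinearMap.det_id, mul_one, h3]
  congr 1
  have h5 : X.restrict hA = ((Submodule.comapSubtypeEquivOfLe hAB : A' ≃ₗ[K] A) : A' →ₗ[K] A) ∘ₗ
      (e.restrict hee) ∘ₗ ((Submodule.comapSubtypeEquivOfLe hAB : A' ≃ₗ[K] A).symm : A →ₗ[K] A') := by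
    ext v
    rfl
  rw [h5, LinearMap.det_conj]

/-- one step of a flag, intersected with a stable subspace `U` -/
theorem dR_inf (X : V →ₗ[K] V) (U A B : Submodule K V) (hU : U ≤ U.comap X) (hAB : A ≤ B)
    (hA : A ≤ A.comap X) (hB : B ≤ B.comap X) (μ : K) (h : ∀ v ∈ B, X v - μ • v ∈ A) (p : V)
    (hp : B ≤ Submodule.span K {p} ⊔ A) :
    (U ⊓ B ≤ A → dR X (U ⊓ B) = dR X (U ⊓ A) ∧ finrank K ↥(U ⊓ B) = finrank K ↥(U ⊓ A)) ∧
    (¬ U ⊓ B ≤ A → dR X (U ⊓ B) = dR X (U ⊓ A) * μ ∧
      finrank K ↥(U ⊓ B) = finrank K ↥(U ⊓ A) + 1) := by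
  constructor
  · intro h1
    have h2 : U ⊓ B = U ⊓ A := le_antisymm (le_inf inf_le_left h1) (inf_le_inf_left U hAB)
    rw [h2]
    exact ⟨rfl, rfl⟩
  · intro h1
    have hst : ∀ C : Submodule K V, C ≤ C.comap X → U ⊓ C ≤ (U ⊓ C).comap X := by
      intro C hC v hv
      exact ⟨hU hv.1, hC hv.2⟩
    have h2 := dR_step X (U ⊓ A) (U ⊓ B) (inf_le_inf_left U hAB) (hst A hA) (hst B hB) μ (by
      intro v hv
      exact ⟨U.sub_mem (hU hv.1) (U.smul_mem _ hv.1), h v hv.2⟩)
    have h3 : finrank K ↥(U ⊓ B) = finrank K ↥(U ⊓ A) + 1 := by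
      obtain ⟨u, hu, hu2⟩ := SetLike.not_le_iff_exists.mp h1
      have h4 : U ⊓ B ≤ Submodule.span K {u} ⊔ (U ⊓ A) := by
        intro v hv
        obtain ⟨a, ha, b, hb, hab⟩ := Submodule.mem_sup.mp (hp hv.2)
        obtain ⟨a', ha', b', hb', hab'⟩ := Submodule.mem_sup.mp (hp hu.2)
        obtain ⟨x, rfl⟩ := Submodule.mem_span_singleton.mp ha
        obtain ⟨y, rfl⟩ := Submodule.mem_span_singleton.mp ha'
        have hy : y ≠ 0 := by
          intro hy
          rw [hy, zero_smul, zero_add] at hab'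
          exact hu2 (hab' ▸ hb')
        rw [Submodule.mem_sup]
        refine ⟨(x * y⁻¹) • u, Submodule.smul_mem _ _ (Submodule.mem_span_singleton_self u),
          v - (x * y⁻¹) • u, ⟨U.sub_mem hv.1 (U.smul_mem _ hu.1), ?_⟩, by abel⟩
        have h5 : v - (x * y⁻¹) • u = b - (x * y⁻¹) • b' := by
          rw [← hab, ← hab', smul_add, smul_smul, mul_assoc, inv_mul_cancel₀ hy, mul_one]
          abel
        rw [h5]
        exact A.sub_mem hb (A.smul_mem _ hb')
      have h6 : Submodule.span K {u} ⊔ (U ⊓ A) = U ⊓ B := by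
        apply le_antisymm _ h4
        apply sup_le
        · rw [Submodule.span_singleton_le_iff_mem]
          exact hu
        · exact inf_le_inf_left U hAB
      have h7 := Submodule.finrank_sup_add_finrank_inf_eq (Submodule.span K {u}) (U ⊓ A)
      have h8 : Submodule.span K {u} ⊓ (U ⊓ A) = ⊥ := by
        rw [eq_bot_iff]
        intro v hv
        obtain ⟨x, rfl⟩ := Submodule.mem_span_singleton.mp hv.1
        rw [Submodule.mem_bot]
        by_contra hx
        have hx0 : x ≠ 0 := by
          intro h0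
          apply hx
          rw [h0, zero_smul]
        have h9 := A.smul_mem x⁻¹ hv.2.2
        rw [smul_smul, inv_mul_cancel₀ hx0, one_smul] at h9
        exact hu2 h9
      have hu0 : u ≠ 0 := by
        intro h0
        apply hu2
        rw [h0]
        exact A.zero_mem
      rw [h6, h8, finrank_bot, finrank_span_singleton hu0] at h7
      omega
    refine ⟨?_, h3⟩
    rw [h2, h3, Nat.add_sub_cancel_left, pow_one]

end MT
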