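import Pool.Agent.Helper21.MT7.LinA

/-!
# The filtration by kernels of powers of a nilpotent operator, refined by Jordan blocks
-/

set_option autoImplicit false

namespace MT

open Module

variable {K V : Type*} [Field K] [AddCommGroup V] [Module K V] [FiniteDimensional K V]

/-- kernels of powers -/
def kr (M : Module.End K V) (j : ℕ) : Submodule K V := LinearMap.ker (M ^ j)

/-- the refined filtration: `ww M j i = ker M^(j-1) + M^(i-j) ker M^i` -/
def ww (M : Module.End K V) (j i : ℕ) : Submodule K V :=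
  kr M (j - 1) ⊔ (kr M i).map (M ^ (i - j))

omit [FiniteDimensional K V] in
theorem mem_kr (M : Module.End K V) (j : ℕ) (v : V) : v ∈ kr M j ↔ (M ^ j) v = 0 := Iff.rfl

omit [FiniteDimensional K V] in
theorem kr_mono (M : Module.End K V) {i j : ℕ} (h : i ≤ j) : kr M i ≤ kr M j := by
  intro v hv
  rw [mem_kr] at hv ⊢
  obtain ⟨k, rfl⟩ := Nat.exists_eq_add_of_le h
  rw [add_comm, pow_add, Module.End.mul_apply, hv, map_zero]

omit [FiniteDimensional K V] in
theorem pow_mem_kr (M : Module.End K V) {i j : ℕ} {v : V} (hv : v ∈ kr M (i + j)) :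
    (M ^ j) v ∈ kr M i := by
  rw [mem_kr] at hv ⊢
  rw [← Module.End.mul_apply, ← pow_add, hv]

omit [FiniteDimensional K V] in
theorem ww_self (M : Module.End K V) (j : ℕ) : ww M j j = kr M j := by
  unfold ww
  rw [Nat.sub_self, pow_zero]
  have h1 : (kr M j).map (1 : Module.End K V) = kr M j := Submodule.map_id _
  rw [h1]
  exact sup_eq_right.mpr (kr_mono M (Nat.sub_le j 1))

omit [FiniteDimensional K V] in
theorem ww_top (M : Module.End K V) (j i L : ℕ) (hL : M ^ L = 0) (h : L + j ≤ i) :
    ww M j i = kr M (j - 1) := by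
  unfold ww
  apply sup_eq_left.mpr
  rintro _ ⟨v, _, rfl⟩
  have h1 : M ^ (i - j) = 0 := by
    obtain ⟨k, hk⟩ := Nat.exists_eq_add_of_le (show L ≤ i - j by omega)
    rw [hk, pow_add, hL, zero_mul]
  rw [h1, LinearMap.zero_apply]
  exact Submodule.zero_mem _

omit [FiniteDimensional K V] in
theorem ww_succ_le (M : Module.End K V) (j i : ℕ) (hi : j ≤ i) :
    ww M j (i + 1) ≤ ww M j i := by
  unfold ww
  apply sup_le le_sup_left
  rintro _ ⟨v, hv, rfl⟩
  apply Submodule.mem_sup_right
  refine ⟨M v, ?_, ?_⟩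
  · have := pow_mem_kr M (i := i) (j := 1) hv
    rwa [pow_one] at this
  · rw [show i + 1 - j = (i - j) + 1 by omega, pow_succ, Module.End.mul_apply]

omit [FiniteDimensional K V] in
/-- `M` maps the step `(j+1, i)` into the step `(j, i)`, injectively on the graded pieces. -/
theorem ww_map (M : Module.End K V) (j i : ℕ) (hj : 1 ≤ j) (hi : j + 1 ≤ i) (u : V)
    (hu : u ∈ ww M (j + 1) i) : M u ∈ ww M j i ∧ (M u ∈ ww M j (i + 1) → u ∈ ww M (j + 1) (i + 1)) := by
  unfold ww at hu ⊢
  rw [Nat.add_sub_cancel] at hu ⊢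
  constructor
  · obtain ⟨a, ha, b, ⟨v, hv, rfl⟩, rfl⟩ := Submodule.mem_sup.mp hu
    rw [map_add]
    apply Submodule.add_mem
    · apply Submodule.mem_sup_left
      have := pow_mem_kr M (i := j - 1) (j := 1) (v := a) (by
        rw [show j - 1 + 1 = j by omega]
        exact ha)
      rwa [pow_one] at this
    · apply Submodule.mem_sup_right
      refine ⟨v, hv, ?_⟩
      rw [show i - j = (i - (j + 1)) + 1 by omega, pow_succ', Module.End.mul_apply]
  · intro h
    obtain ⟨a, ha, b, ⟨v, hv, rfl⟩, hab⟩ := Submodule.mem_sup.mp h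
    have h1 : u = (u - (M ^ (i - j)) v) + (M ^ (i - j)) v := by abel
    rw [h1]
    apply Submodule.add_mem
    · apply Submodule.mem_sup_left
      rw [mem_kr]
      have h2 : M (u - (M ^ (i - j)) v) = a := by
        rw [map_sub, ← hab, show i + 1 - j = (i - j) + 1 by omega, pow_succ', Module.End.mul_apply]
        abel
      have e : M ^ j = M ^ (j - 1) * M := by rw [← pow_succ, Nat.sub_add_cancel hj]
      rw [e, Module.End.mul_apply, h2]
      exact ha
    · apply Submodule.mem_sup_right
      refine ⟨v, hv, ?_⟩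
      rw [show i + 1 - (j + 1) = i - j by omega]

/-- the part of `ker M^i` generated by shorter and longer Jordan blocks -/
def rr (M : Module.End K V) (i : ℕ) : Submodule K V := kr M (i - 1) ⊔ (kr M (i + 1)).map M

omit [FiniteDimensional K V] in
theorem rr_le (M : Module.End K V) (i : ℕ) : rr M i ≤ kr M i := by
  unfold rr
  apply sup_le (kr_mono M (Nat.sub_le i 1))
  rintro _ ⟨v, hv, rfl⟩
  have := pow_mem_kr M (i := i) (j := 1) hv
  rwa [pow_one] at this

omit [FiniteDimensional K V] in
theorem rr_map (M : Module.End K V) (j i : ℕ) (hj : 1 ≤ j) (hi : j ≤ i) :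
    (rr M i).map (M ^ (i - j)) ≤ ww M j (i + 1) := by
  rintro _ ⟨v, hv, rfl⟩
  unfold rr at hv
  obtain ⟨a, ha, b, ⟨x, hx, rfl⟩, rfl⟩ := Submodule.mem_sup.mp hv
  rw [map_add]
  unfold ww
  apply Submodule.add_mem
  · apply Submodule.mem_sup_left
    apply pow_mem_kr M
    rwa [show j - 1 + (i - j) = i - 1 by omega]
  · apply Submodule.mem_sup_right
    refine ⟨x, hx, ?_⟩
    rw [show i + 1 - j = (i - j) + 1 by omega, pow_succ, Module.End.mul_apply]

/-- dimension of `rr` -/
theorem rr_finrank (M : Module.End K V) (i : ℕ) (hi : 1 ≤ i) :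
    finrank K (rr M i) + finrank K (kr M i) =
      finrank K (kr M (i - 1)) + finrank K (kr M (i + 1)) := by
  have hker : ∀ k : ℕ, 1 ≤ k → finrank K ((kr M k).map M) + finrank K (kr M 1) =
      finrank K (kr M k) := by
    intro k hk
    have h1 := LinearMap.finrank_range_add_finrank_ker (M.domRestrict (kr M k))
    have h2 : LinearMap.range (M.domRestrict (kr M k)) = (kr M k).map M := by
      rw [LinearMap.range_domRestrict]
    have h3 : finrank K (LinearMap.ker (M.domRestrict (kr M k))) = finrank K (kr M 1) := by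
      have h4 : (LinearMap.ker (M.domRestrict (kr M k))).map (kr M k).subtype = kr M 1 := by
        ext v
        constructor
        · rintro ⟨⟨x, hx⟩, hx2, rfl⟩
          rw [mem_kr, pow_one]
          exact hx2
        · intro hv
          refine ⟨⟨v, kr_mono M hk hv⟩, ?_, rfl⟩
          rw [mem_kr, pow_one] at hv
          exact hv
      rw [← h4]
      exact (LinearEquiv.finrank_eq (Submodule.equivMapOfInjective (kr M k).subtype
        (kr M k).injective_subtype _))
    rw [h2, h3] at h1
    exact h1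
  have h1 := Submodule.finrank_sup_add_finrank_inf_eq (kr M (i - 1)) ((kr M (i + 1)).map M)
  have h2 : kr M (i - 1) ⊓ (kr M (i + 1)).map M = (kr M i).map M := by
    ext v
    constructor
    · rintro ⟨h3, x, hx, rfl⟩
      refine ⟨x, ?_, rfl⟩
      rw [SetLike.mem_coe, mem_kr] at h3
      rw [SetLike.mem_coe, mem_kr, show i = (i - 1) + 1 by omega, pow_succ, Module.End.mul_apply, h3]
    · rintro ⟨x, hx, rfl⟩
      refine ⟨?_, x, kr_mono M (Nat.le_succ i) hx, rfl⟩
      have := pow_mem_kr M (i := i - 1) (j := 1) (v := x) (by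
        rw [show i - 1 + 1 = i by omega]
        exact hx)
      rwa [pow_one] at this
  rw [h2] at h1
  have h3 := hker (i + 1) (by omega)
  have h4 := hker i hi
  unfold rr
  omega

/-- the dimensions from the ranks -/
theorem kr_finrank (M : Module.End K V) (Λ : Finset ℕ)
    (hr : ∀ k : ℕ, finrank K (LinearMap.range (M ^ k)) = ∑ i ∈ Λ, (i - k)) (k : ℕ) :
    finrank K (kr M k) = ∑ i ∈ Λ, min i k := by
  have h1 := LinearMap.finrank_range_add_finrank_ker (M ^ k)
  have h2 := LinearMap.finrank_range_add_finrank_ker (M ^ 0)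
  have h3 : finrank K (LinearMap.ker (M ^ 0)) = 0 := by
    rw [pow_zero]
    have : LinearMap.ker (1 : Module.End K V) = ⊥ := LinearMap.ker_id
    rw [this, finrank_bot]
  rw [h3, add_zero, hr 0] at h2
  rw [hr k, ← h2] at h1
  have h4 : ∑ i ∈ Λ, (i - 0) = ∑ i ∈ Λ, (i - k) + ∑ i ∈ Λ, min i k := by
    rw [← Finset.sum_add_distrib]
    apply Finset.sum_congr rfl
    intro i _
    omega
  rw [h4] at h1
  exact Nat.add_left_cancel h1

theorem rr_codim (M : Module.End K V) (Λ : Finset ℕ)
    (hr : ∀ k : ℕ, finrank K (LinearMap.range (M ^ k)) = ∑ i ∈ Λ, (i - k)) (i : ℕ) (hi : 1 ≤ i) :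
    finrank K (kr M i) = finrank K (rr M i) + if i ∈ Λ then 1 else 0 := by
  have h1 := rr_finrank M i hi
  rw [kr_finrank M Λ hr, kr_finrank M Λ hr, kr_finrank M Λ hr] at h1
  rw [kr_finrank M Λ hr]
  have h2 : ∑ j ∈ Λ, min j i + ∑ j ∈ Λ, min j i = ∑ j ∈ Λ, min j (i - 1) +
      ∑ j ∈ Λ, min j (i + 1) + if i ∈ Λ then 1 else 0 := by
    have h3 : (if i ∈ Λ then 1 else 0) = ∑ j ∈ Λ, if j = i then 1 else 0 := by
      rw [Finset.sum_ite_eq' Λ i]
    rw [h3, ← Finset.sum_add_distrib, ← Finset.sum_add_distrib, ← Finset.sum_add_distrib]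
    apply Finset.sum_congr rfl
    intro j _
    split_ifs <;> omega
  omega

/-- a generator of the block of size `i` -/
theorem exists_gen (M : Module.End K V) (Λ : Finset ℕ)
    (hr : ∀ k : ℕ, finrank K (LinearMap.range (M ^ k)) = ∑ i ∈ Λ, (i - k)) (i : ℕ) (hi : 1 ≤ i) :
    (i ∉ Λ → kr M i = rr M i) ∧ (i ∈ Λ → ∃ p ∈ kr M i, p ∉ rr M i) ∧
      ∀ p ∈ kr M i, p ∉ rr M i → kr M i ≤ Submodule.span K {p} ⊔ rr M i := by
  have h1 := rr_codim M Λ hr i hi
  refine ⟨?_, ?_, ?_⟩
  · intro h2
    rw [if_neg h2, add_zero] at h1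
    exact (Submodule.eq_of_le_of_finrank_eq (rr_le M i) h1.symm).symm
  · intro h2
    rw [if_pos h2] at h1
    by_contra hcon
    push Not at hcon
    have h3 : rr M i = kr M i := le_antisymm (rr_le M i) hcon
    rw [h3] at h1
    omega
  · intro p hp hp2
    have h3 : rr M i < Submodule.span K {p} ⊔ rr M i := by
      apply lt_of_le_of_ne le_sup_right
      intro h4
      apply hp2
      rw [h4]
      exact Submodule.mem_sup_left (Submodule.mem_span_singleton_self p)
    have h4 := Submodule.finrank_lt_finrank_of_lt h3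
    have h5 : Submodule.span K {p} ⊔ rr M i ≤ kr M i := by
      apply sup_le _ (rr_le M i)
      rw [Submodule.span_singleton_le_iff_mem]
      exact hp
    have h6 := Submodule.finrank_mono h5
    have h7 : finrank K (kr M i) ≤ finrank K (rr M i) + 1 := by
      rw [h1]
      split_ifs <;> omega
    exact (Submodule.eq_of_le_of_finrank_eq h5 (by omega)).ge

end MT
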