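import Pool.Agent.Helper21.MT7.LinB

/-!
# The action of a Frobenius operator on the refined filtration
-/

set_option autoImplicit false

namespace MT

open Module

variable {K V : Type*} [Field K] [AddCommGroup V] [Module K V] [FiniteDimensional K V]

/-- the data: `X M = M G X`, `G = Q + M G'`, everything but `X` commutes -/
structure Frb (M X G G' : Module.End K V) (Q : K) : Prop where
  hX : X * M = M * G * X
  hG : G = Q • 1 + M * G'
  c1 : Commute M G
  c2 : Commute M G'
  hQ : Q ≠ 0
  inj : Function.Injective X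
  nil : IsNilpotent M

omit [FiniteDimensional K V] in
theorem geo (t X : Module.End K V) (q : ℕ) (hXt : X * t = t ^ q * X) (hq : (q : K) ≠ 0)
    (hinj : Function.Injective X) (hnil : IsNilpotent (t - 1)) :
    ∃ G G' : Module.End K V, Frb (t - 1) X G G' (q : K) := by
  have hpow : ∀ k : ℕ, ∃ E : Module.End K V, t ^ k - 1 = (t - 1) * E ∧ Commute (t - 1) E := by
    intro k
    refine ⟨∑ i ∈ Finset.range k, t ^ i, ?_, ?_⟩
    · rw [mul_geom_sum]
    · apply Commute.sum_right
      intro i _
      exact ((Commute.refl t).sub_left (Commute.one_left t)).pow_right i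
  choose E hE hEc using hpow
  refine ⟨∑ i ∈ Finset.range q, t ^ i, ∑ i ∈ Finset.range q, E i, ?_, ?_, ?_, ?_, hq, hinj, hnil⟩
  · rw [mul_geom_sum, mul_sub, hXt, mul_one, sub_mul, one_mul]
  · rw [Finset.mul_sum]
    have h1 : ((q : K) • (1 : Module.End K V)) = ∑ i ∈ Finset.range q, 1 := by
      rw [Finset.sum_const, Finset.card_range, Nat.cast_smul_eq_nsmul]
    rw [h1, ← Finset.sum_add_distrib]
    apply Finset.sum_congr rfl
    intro i _
    rw [← hE i]
    abel
  · apply Commute.sum_right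
    intro i _
    exact ((Commute.refl t).sub_left (Commute.one_left t)).pow_right i
  · apply Commute.sum_right
    intro i _
    exact hEc i

variable {M X G G' : Module.End K V} {Q : K}

omit [FiniteDimensional K V] in
theorem Frb.unit (h : Frb M X G G' Q) : IsUnit G := by
  rw [h.hG]
  have h1 : IsUnit (Q • (1 : Module.End K V)) := by
    have h2 : Q • (1 : Module.End K V) = algebraMap K (Module.End K V) Q := by
      rw [Algebra.algebraMap_eq_smul_one]
    rw [h2]
    exact (isUnit_iff_ne_zero.mpr h.hQ).map (algebraMap K (Module.End K V))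
  apply IsNilpotent.isUnit_add_left_of_commute
  · exact h.c2.isNilpotent_mul_right h.nil
  · exact h1
  · rw [← Algebra.algebraMap_eq_smul_one]
    exact (Algebra.commutes Q (M * G')).symm

omit [FiniteDimensional K V] in
theorem Frb.pow (h : Frb M X G G' Q) (k : ℕ) : X * M ^ k = M ^ k * G ^ k * X := by
  induction k with
  | zero => simp
  | succ k ih =>
    have h1 : Commute (G ^ k) M := (h.c1.symm.pow_left k)
    calc X * M ^ (k + 1) = X * M ^ k * M := by rw [pow_succ, mul_assoc]
      _ = M ^ k * G ^ k * (X * M) := by rw [ih, mul_assoc]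
      _ = M ^ k * (G ^ k * M) * G * X := by rw [h.hX]; simp only [mul_assoc]
      _ = M ^ (k + 1) * G ^ (k + 1) * X := by rw [h1.eq, pow_succ, pow_succ]; simp only [mul_assoc]

omit [FiniteDimensional K V] in
/-- `X` preserves the kernels -/
theorem Frb.kr (h : Frb M X G G' Q) (j : ℕ) (v : V) (hv : v ∈ MT.kr M j) : X v ∈ MT.kr M j := by
  rw [mem_kr] at hv ⊢
  have h1 : (M ^ j * G ^ j * X) v = 0 := by
    rw [← h.pow j, Module.End.mul_apply, hv, map_zero]
  have h2 : M ^ j * G ^ j = G ^ j * M ^ j := ((h.c1.pow_pow j j).eq)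
  rw [h2, mul_assoc, Module.End.mul_apply] at h1
  obtain ⟨u, hu⟩ := (h.unit.pow j)
  rw [← hu] at h1
  have h3 := congrArg (fun z => ((u⁻¹ : (Module.End K V)ˣ) : Module.End K V) z) h1
  simp only [map_zero] at h3
  rw [← Module.End.mul_apply, Units.inv_mul] at h3
  exact h3

omit [FiniteDimensional K V] in
/-- `G^k` acts as `Q^k` on the graded pieces of the kernel filtration -/
theorem Frb.gpow (h : Frb M X G G' Q) (k : ℕ) : ∃ E : Module.End K V,
    G ^ k = Q ^ k • 1 + M * E ∧ Commute M E := by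
  induction k with
  | zero => exact ⟨0, by simp, Commute.zero_right M⟩
  | succ k ih =>
    obtain ⟨E, hE, hc⟩ := ih
    refine ⟨Q ^ k • G' + E * G, ?_, ?_⟩
    · have e1 : Q ^ k • G = Q ^ (k + 1) • (1 : Module.End K V) + Q ^ k • (M * G') := by
        conv_lhs => rw [h.hG]
        rw [smul_add, smul_smul, ← pow_succ]
      rw [pow_succ, hE, add_mul, smul_mul_assoc, one_mul, e1, mul_add, mul_smul_comm, mul_assoc,
        add_assoc]
    · exact (h.c2.smul_right (Q ^ k)).add_right (hc.mul_right h.c1)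

omit [FiniteDimensional K V] in
/-- `X` preserves `rr` -/
theorem Frb.rr (h : Frb M X G G' Q) (i : ℕ) (v : V) (hv : v ∈ MT.rr M i) : X v ∈ MT.rr M i := by
  unfold MT.rr at hv ⊢
  obtain ⟨a, ha, b, ⟨x, hx, rfl⟩, rfl⟩ := Submodule.mem_sup.mp hv
  rw [map_add]
  apply Submodule.add_mem
  · exact Submodule.mem_sup_left (h.kr _ _ ha)
  · apply Submodule.mem_sup_right
    refine ⟨G (X x), ?_, ?_⟩
    · have h1 : X x ∈ MT.kr M (i + 1) := h.kr _ _ hx
      rw [mem_kr] at h1
      rw [SetLike.mem_coe, mem_kr]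
      rw [← Module.End.mul_apply, (h.c1.pow_left (i + 1)).eq, Module.End.mul_apply, h1, map_zero]
    · have h1 := congrArg (fun z => z x) h.hX
      simp only [Module.End.mul_apply] at h1
      exact h1.symm

omit [FiniteDimensional K V] in
/-- the action of `X` on the graded piece `(j, i)` -/
theorem Frb.step (h : Frb M X G G' Q) (j i : ℕ) (hj : 1 ≤ j) (hi : j ≤ i) (α : K)
    (hα : ∀ v ∈ MT.kr M i, X v - α • v ∈ MT.rr M i) (v : V) (hv : v ∈ ww M j i) :
    X v - (Q ^ (i - j) * α) • v ∈ ww M j (i + 1) := by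
  unfold ww at hv
  obtain ⟨a, ha, b, ⟨x, hx, rfl⟩, rfl⟩ := Submodule.mem_sup.mp hv
  have h1 : X a - (Q ^ (i - j) * α) • a ∈ MT.kr M (j - 1) :=
    Submodule.sub_mem _ (h.kr _ _ ha) (Submodule.smul_mem _ _ ha)
  have h2 : X ((M ^ (i - j)) x) - (Q ^ (i - j) * α) • (M ^ (i - j)) x ∈ ww M j (i + 1) := by
    obtain ⟨E, hE, hc⟩ := h.gpow (i - j)
    have h3 : X ((M ^ (i - j)) x) = (M ^ (i - j)) (Q ^ (i - j) • X x) +
        (M ^ (i - j)) (M (E (X x))) := by
      have h4 := congrArg (fun z => z x) (h.pow (i - j))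
      simp only [Module.End.mul_apply] at h4
      rw [h4, hE, ← map_add]
      rfl
    rw [h3]
    have h5 : (M ^ (i - j)) (Q ^ (i - j) • X x) + (M ^ (i - j)) (M (E (X x))) -
        (Q ^ (i - j) * α) • (M ^ (i - j)) x =
        Q ^ (i - j) • (M ^ (i - j)) (X x - α • x) + (M ^ (i - j)) (M (E (X x))) := by
      rw [map_smul, map_sub, map_smul, smul_sub, smul_smul]
      abel
    rw [h5]
    apply Submodule.add_mem
    · apply Submodule.smul_mem
      exact rr_map M j i hj hi ⟨_, hα x hx, rfl⟩
    · unfold ww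
      apply Submodule.mem_sup_left
      apply pow_mem_kr M
      rw [mem_kr, show j - 1 + (i - j) = i - 1 by omega]
      have h6 : M ^ (i - 1) * M = M ^ i := by
        rw [← pow_succ, Nat.sub_add_cancel (le_trans hj hi)]
      rw [← Module.End.mul_apply, h6, ← Module.End.mul_apply, (hc.pow_left i).eq,
        Module.End.mul_apply]
      have h7 := h.kr _ _ hx
      rw [mem_kr] at h7
      rw [h7, map_zero]
  have h3 : X (a + (M ^ (i - j)) x) - (Q ^ (i - j) * α) • (a + (M ^ (i - j)) x) =
      (X a - (Q ^ (i - j) * α) • a) +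
        (X ((M ^ (i - j)) x) - (Q ^ (i - j) * α) • (M ^ (i - j)) x) := by
    rw [map_add, smul_add]
    abel
  rw [h3]
  exact Submodule.add_mem _ (Submodule.mem_sup_left h1) h2

omit [FiniteDimensional K V] in
/-- `X` preserves `ww` -/
theorem Frb.ww (h : Frb M X G G' Q) (j i : ℕ) (v : V) (hv : v ∈ MT.ww M j i) : X v ∈ MT.ww M j i := by
  unfold MT.ww at hv ⊢
  obtain ⟨a, ha, b, ⟨x, hx, rfl⟩, rfl⟩ := Submodule.mem_sup.mp hv
  rw [map_add]
  apply Submodule.add_mem
  · exact Submodule.mem_sup_left (h.kr _ _ ha)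
  · apply Submodule.mem_sup_right
    refine ⟨(G ^ (i - j)) (X x), ?_, ?_⟩
    · have h1 : X x ∈ MT.kr M i := h.kr _ _ hx
      rw [mem_kr] at h1
      rw [SetLike.mem_coe, mem_kr]
      rw [← Module.End.mul_apply, (h.c1.pow_pow i (i - j)).eq, Module.End.mul_apply, h1, map_zero]
    · have h1 := congrArg (fun z => z x) (h.pow (i - j))
      simp only [Module.End.mul_apply] at h1
      exact h1.symm

end MT
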