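import Pool.Agent.Helper21.MT7.LinC

/-!
# The bilinear form and the eigenvalues
-/

set_option autoImplicit false

namespace MT

open Module

variable {K V : Type*} [Field K] [AddCommGroup V] [Module K V]

section form
variable (b : V →ₗ[K] V →ₗ[K] K) (hb : ∀ v, (∀ u, b u v = 0) → v = 0) (t : Module.End K V)
  (ht : ∀ u v, b (t u) (t v) = b u v)
include ht

theorem frm1 (u v : V) : b ((t - 1) u) (t v) = - b u ((t - 1) v) := by
  simp only [LinearMap.sub_apply, Module.End.one_apply, map_sub, ht]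
  ring

theorem frm2 (k : ℕ) : ∀ u v : V, b (((t - 1) ^ k) u) ((t ^ k) v) =
    (-1) ^ k * b u (((t - 1) ^ k) v) := by
  induction k with
  | zero => intro u v; simp
  | succ k ih =>
    intro u v
    have hc : Commute (t - 1) t := (Commute.refl t).sub_left (Commute.one_left t)
    have h1 : ((t - 1) ^ (k + 1)) u = (t - 1) (((t - 1) ^ k) u) := by
      rw [pow_succ', Module.End.mul_apply]
    have h2 : (t ^ (k + 1)) v = t ((t ^ k) v) := by
      rw [pow_succ', Module.End.mul_apply]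
    have h3 : (t - 1) ((t ^ k) v) = (t ^ k) ((t - 1) v) := by
      rw [← Module.End.mul_apply, (hc.pow_right k).eq, Module.End.mul_apply]
    have h4 : ((t - 1) ^ (k + 1)) v = ((t - 1) ^ k) ((t - 1) v) := by
      rw [pow_succ, Module.End.mul_apply]
    rw [h1, h2, frm1 b t ht, h3, ih, h4]
    ring

theorem t_inj (hb : ∀ v, (∀ u, b u v = 0) → v = 0) : Function.Injective t := by
  rw [injective_iff_map_eq_zero]
  intro v hv
  apply hb
  intro u
  rw [← ht, hv, map_zero]

variable [FiniteDimensional K V]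

theorem t_surj (hb : ∀ v, (∀ u, b u v = 0) → v = 0) : Function.Surjective t :=
  LinearMap.surjective_of_injective (t_inj b t ht hb)

theorem frm3 (hb : ∀ v, (∀ u, b u v = 0) → v = 0) (k : ℕ) (u v : V) (hu : ((t - 1) ^ k) u = 0) :
    b u (((t - 1) ^ k) v) = 0 := by
  have h1 := frm2 b t ht k u v
  rw [hu, map_zero, LinearMap.zero_apply] at h1
  have h2 : ((-1 : K) ^ k) ≠ 0 := pow_ne_zero _ (neg_ne_zero.mpr one_ne_zero)
  exact (mul_eq_zero.mp h1.symm).resolve_left h2

theorem frm4 (hb : ∀ v, (∀ u, b u v = 0) → v = 0) (i : ℕ) (hi : 1 ≤ i) (r u : V)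
    (hr : r ∈ rr (t - 1) i) (hu : u ∈ kr (t - 1) i) : b r (((t - 1) ^ (i - 1)) u) = 0 := by
  unfold rr at hr
  obtain ⟨a, ha, _, ⟨x, hx, rfl⟩, rfl⟩ := Submodule.mem_sup.mp hr
  rw [map_add, LinearMap.add_apply, frm3 b t ht hb (i - 1) a u ha, zero_add]
  obtain ⟨z, hz⟩ := t_surj b t ht hb (((t - 1) ^ (i - 1)) u)
  rw [← hz, frm1 b t ht]
  have hc : Commute (t - 1) t := (Commute.refl t).sub_left (Commute.one_left t)
  have h1 : t ((t - 1) z) = 0 := by
    rw [← Module.End.mul_apply, ← hc.eq, Module.End.mul_apply, hz, ← Module.End.mul_apply,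
      ← pow_succ', Nat.sub_add_cancel hi]
    exact hu
  have h2 : (t - 1) z = 0 := t_inj b t ht hb (by rw [h1, map_zero])
  rw [h2, map_zero, neg_zero]

theorem frm5 (hb : ∀ v, (∀ u, b u v = 0) → v = 0) (i : ℕ) (hi : 1 ≤ i) (r u : V)
    (hr : r ∈ rr (t - 1) i) (hu : u ∈ kr (t - 1) i) : b u (((t - 1) ^ (i - 1)) r) = 0 := by
  unfold rr at hr
  obtain ⟨a, ha, _, ⟨x, hx, rfl⟩, rfl⟩ := Submodule.mem_sup.mp hr
  rw [mem_kr] at ha
  rw [map_add, ha, zero_add, ← Module.End.mul_apply, ← pow_succ, Nat.sub_add_cancel hi]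
  exact frm3 b t ht hb i u x hu

/-- the orthogonal complement of the kernel of `M^i` is the image -/
theorem frm6 (hb : ∀ v, (∀ u, b u v = 0) → v = 0) (i : ℕ) (w : V)
    (hw : ∀ u ∈ kr (t - 1) i, b u w = 0) : ∃ v, w = ((t - 1) ^ i) v := by
  let φ : V →ₗ[K] Module.Dual K V := b.flip
  have hφ : Function.Injective φ := by
    rw [injective_iff_map_eq_zero]
    intro v hv
    apply hb
    intro u
    have := congrArg (fun z => z u) hv
    exact this
  have hφs : Function.Surjective φ := by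
    rw [← LinearMap.range_eq_top]
    apply Submodule.eq_top_of_finrank_eq
    rw [LinearMap.finrank_range_of_inj hφ, Subspace.dual_finrank_eq]
  let e : V ≃ₗ[K] Module.Dual K V := LinearEquiv.ofBijective φ ⟨hφ, hφs⟩
  let W' : Submodule K V := (kr (t - 1) i).dualAnnihilator.comap (e : V →ₗ[K] Module.Dual K V)
  have h1 : finrank K W' = finrank K (kr (t - 1) i).dualAnnihilator := by
    have h2 : W'.map (e : V →ₗ[K] Module.Dual K V) = (kr (t - 1) i).dualAnnihilator := by
      apply Submodule.map_comap_eq_of_surjective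
      exact hφs
    rw [← h2]
    exact (LinearEquiv.finrank_map_eq e W').symm
  have h2 := Subspace.finrank_add_finrank_dualAnnihilator_eq (kr (t - 1) i)
  have h3 := LinearMap.finrank_range_add_finrank_ker ((t - 1) ^ i)
  have h4 : LinearMap.range ((t - 1) ^ i) ≤ W' := by
    rintro _ ⟨v, rfl⟩
    change φ _ ∈ (kr (t - 1) i).dualAnnihilator
    rw [Submodule.mem_dualAnnihilator]
    intro u hu
    exact frm3 b t ht hb i u v hu
  have h5 : LinearMap.range ((t - 1) ^ i) = W' := by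
    apply Submodule.eq_of_le_of_finrank_eq h4
    unfold kr at h2
    unfold kr at h1
    omega
  have h6 : w ∈ W' := by
    change φ _ ∈ (kr (t - 1) i).dualAnnihilator
    rw [Submodule.mem_dualAnnihilator]
    exact hw
  rw [← h5] at h6
  obtain ⟨v, hv⟩ := h6
  exact ⟨v, hv.symm⟩

theorem frm7 (hb : ∀ v, (∀ u, b u v = 0) → v = 0) (Λ : Finset ℕ)
    (hr : ∀ k : ℕ, finrank K (LinearMap.range ((t - 1) ^ k)) = ∑ i ∈ Λ, (i - k)) (i : ℕ)
    (hi : 1 ≤ i) (p : V) (hp : p ∈ kr (t - 1) i) (hp2 : p ∉ rr (t - 1) i) :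
    b p (((t - 1) ^ (i - 1)) p) ≠ 0 := by
  intro h0
  apply hp2
  have h1 : ∀ u ∈ kr (t - 1) i, b u (((t - 1) ^ (i - 1)) p) = 0 := by
    intro u hu
    obtain ⟨a, ha, r, hr2, rfl⟩ := Submodule.mem_sup.mp
      ((exists_gen (t - 1) Λ hr i hi).2.2 p hp hp2 hu)
    obtain ⟨x, rfl⟩ := Submodule.mem_span_singleton.mp ha
    rw [map_add, LinearMap.add_apply, map_smul, LinearMap.smul_apply, h0, smul_zero, zero_add]
    exact frm4 b t ht hb i hi r p hr2 hp
  obtain ⟨v, hv⟩ : ∃ v, ((t - 1) ^ (i - 1)) p = ((t - 1) ^ i) v :=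
    frm6 b t ht hb i _ h1
  have h2 : p = (p - (t - 1) v) + (t - 1) v := by abel
  rw [h2]
  unfold rr
  apply Submodule.add_mem
  · apply Submodule.mem_sup_left
    rw [mem_kr, map_sub, hv, ← Module.End.mul_apply, ← pow_succ, Nat.sub_add_cancel hi, sub_self]
  · apply Submodule.mem_sup_right
    refine ⟨v, ?_, rfl⟩
    rw [SetLike.mem_coe, mem_kr, pow_succ', Module.End.mul_apply, ← hv, ← Module.End.mul_apply,
      ← pow_succ', Nat.sub_add_cancel hi]
    exact hp

/-- the eigenvalue on the block of size `i` -/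
theorem frm8 (hb : ∀ v, (∀ u, b u v = 0) → v = 0) (Λ : Finset ℕ)
    (hr : ∀ k : ℕ, finrank K (LinearMap.range ((t - 1) ^ k)) = ∑ i ∈ Λ, (i - k))
    (X G G' : Module.End K V) (Q c : K) (hF : Frb (t - 1) X G G' Q)
    (hX : ∀ u v, b (X u) (X v) = c * b u v) (i : ℕ) (hi : 1 ≤ i) (hiΛ : i ∈ Λ) :
    ∃ α : K, α ^ 2 * Q ^ (i - 1) = c ∧ ∀ v ∈ kr (t - 1) i, X v - α • v ∈ rr (t - 1) i := by
  obtain ⟨p, hp, hp2⟩ := (exists_gen (t - 1) Λ hr i hi).2.1 hiΛ
  have hgen := (exists_gen (t - 1) Λ hr i hi).2.2 p hp hp2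
  obtain ⟨a, ha, r, hr2, hXp⟩ := Submodule.mem_sup.mp (hgen (hF.kr i p hp))
  obtain ⟨α, rfl⟩ := Submodule.mem_span_singleton.mp ha
  refine ⟨α, ?_, ?_⟩
  · have h1 := hX p (((t - 1) ^ (i - 1)) p)
    obtain ⟨E, hE, hc⟩ := hF.gpow (i - 1)
    have h2 : X (((t - 1) ^ (i - 1)) p) = Q ^ (i - 1) • ((t - 1) ^ (i - 1)) (X p) := by
      have h3 := congrArg (fun z => z p) (hF.pow (i - 1))
      simp only [Module.End.mul_apply] at h3
      rw [h3, hE]
      have h4 : ((Q ^ (i - 1) • (1 : Module.End K V) + (t - 1) * E) (X p)) =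
          Q ^ (i - 1) • X p + (t - 1) (E (X p)) := rfl
      rw [h4, map_add, map_smul]
      have h5 : ((t - 1) ^ (i - 1)) ((t - 1) (E (X p))) = 0 := by
        rw [← Module.End.mul_apply, ← pow_succ, Nat.sub_add_cancel hi, ← Module.End.mul_apply,
          (hc.pow_left i).eq, Module.End.mul_apply]
        have h6 := hF.kr i p hp
        rw [mem_kr] at h6
        rw [h6, map_zero]
      rw [h5, add_zero]
    rw [h2, map_smul, ← hXp] at h1
    have hpr : α • p ∈ kr (t - 1) i := Submodule.smul_mem _ _ hp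
    have h7 : b (α • p + r) (((t - 1) ^ (i - 1)) (α • p + r)) =
        α ^ 2 * b p (((t - 1) ^ (i - 1)) p) := by
      rw [map_add, LinearMap.add_apply]
      rw [frm4 b t ht hb i hi r (α • p + r) hr2 (Submodule.add_mem _ hpr (rr_le _ _ hr2)), add_zero]
      rw [map_add, map_add, frm5 b t ht hb i hi r (α • p) hr2 hpr, add_zero, map_smul, map_smul,
        map_smul, LinearMap.smul_apply]
      simp only [smul_eq_mul]
      ring
    rw [smul_eq_mul, h7] at h1
    have h8 := frm7 b t ht hb Λ hr i hi p hp hp2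
    apply mul_right_cancel₀ h8
    rw [← h1]
    ring
  · intro v hv
    obtain ⟨a, ha, s, hs, rfl⟩ := Submodule.mem_sup.mp (hgen hv)
    obtain ⟨x, rfl⟩ := Submodule.mem_span_singleton.mp ha
    have h1 : X (x • p + s) - α • (x • p + s) = x • r + (X s - α • s) := by
      rw [map_add, map_smul, ← hXp, smul_add, smul_add, smul_comm x α p]
      abel
    rw [h1]
    exact Submodule.add_mem _ (Submodule.smul_mem _ _ hr2)
      (Submodule.sub_mem _ (hF.rr i s hs) (Submodule.smul_mem _ _ hs))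

end form

end MT
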