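import Pool.Agent.Helper21.MT7.LinD

/-!
# The determinant on a stable subspace
-/

set_option autoImplicit false

namespace MT

open Module

/-- a set of numbers in `[1, i]` closed downwards is an interval -/
theorem down_card (i : ℕ) (E : ℕ → Prop) [DecidablePred E]
    (h : ∀ j, 1 ≤ j → j + 1 ≤ i → E (j + 1) → E j) :
    (Finset.Icc 1 i).filter E = Finset.Icc 1 ((Finset.Icc 1 i).filter E).card := by
  have key : ∀ s : Finset ℕ, (∀ j ∈ s, 1 ≤ j) → (∀ j, 1 ≤ j → j + 1 ∈ s → j ∈ s) →
      s = Finset.Icc 1 s.card := by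
    intro s hs1 hs2
    rcases s.eq_empty_or_nonempty with h0 | h0
    · rw [h0]; rfl
    · have h1 : ∀ d, d < s.max' h0 → s.max' h0 - d ∈ s := by
        intro d
        induction d with
        | zero => intro _; exact s.max'_mem h0
        | succ d ih =>
          intro hd
          apply hs2 _ (by omega)
          have := ih (by omega)
          rwa [show s.max' h0 - (d + 1) + 1 = s.max' h0 - d by omega]
      have h2 : s = Finset.Icc 1 (s.max' h0) := by
        ext j
        rw [Finset.mem_Icc]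
        constructor
        · intro hj
          exact ⟨hs1 j hj, s.le_max' j hj⟩
        · rintro ⟨hj1, hj2⟩
          have := h1 (s.max' h0 - j) (by omega)
          rwa [show s.max' h0 - (s.max' h0 - j) = j by omega] at this
      have h3 : s.card = s.max' h0 := by
        conv_lhs => rw [h2]
        rw [Nat.card_Icc]
        omega
      rw [h3]
      exact h2
  apply key
  · intro j hj
    rw [Finset.mem_filter, Finset.mem_Icc] at hj
    exact hj.1.1
  · intro j hj hj2
    rw [Finset.mem_filter, Finset.mem_Icc] at hj2 ⊢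
    exact ⟨⟨hj, by omega⟩, h j hj hj2.1.2 hj2.2⟩

theorem prod_weights {K : Type*} [Field K] (c Q : K) (hQ : Q ≠ 0) (i f : ℕ) (hf : f ≤ i) :
    ∏ j ∈ Finset.Icc 1 f, (c * Q ^ ((i : ℤ) + 1 - 2 * j)) = c ^ f * Q ^ (f * (i - f)) := by
  rw [Finset.prod_mul_distrib, Finset.prod_const, Nat.card_Icc, Nat.add_sub_cancel]
  congr 1
  have h1 : ∀ f : ℕ, f ≤ i → ∏ j ∈ Finset.Icc 1 f, Q ^ ((i : ℤ) + 1 - 2 * j) =
      Q ^ ((f : ℤ) * (i - f)) := by
    intro f
    induction f with
    | zero => intro _; simp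
    | succ f ih =>
      intro hf
      rw [Finset.prod_Icc_succ_top (by omega), ih (by omega), ← zpow_add₀ hQ]
      congr 1
      push_cast
      ring
  rw [h1 f hf, ← zpow_natCast]
  congr 1
  push_cast [Nat.cast_sub hf]
  ring

variable {K V : Type*} [Field K] [AddCommGroup V] [Module K V] [FiniteDimensional K V]

/-- the jumps of the filtration on `U` -/
def jmp (M : Module.End K V) (U : Submodule K V) (j i : ℕ) : Prop :=
  ¬ U ⊓ ww M j i ≤ ww M j (i + 1)

theorem lin2_core (b : V →ₗ[K] V →ₗ[K] K) (hb : ∀ v, (∀ u, b u v = 0) → v = 0)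
    (t X : Module.End K V) (ht : ∀ u v, b (t u) (t v) = b u v) (Λ : Finset ℕ)
    (hr : ∀ k : ℕ, finrank K (LinearMap.range ((t - 1) ^ k)) = ∑ i ∈ Λ, (i - k))
    (q : ℕ) (hq : (q : K) ≠ 0) (c : K) (hc : c ≠ 0) (hXt : X * t = t ^ q * X)
    (hX : ∀ u v, b (X u) (X v) = c * b u v) (U : Submodule K V) (hUt : ∀ u ∈ U, t u ∈ U)
    (hUX : U ≤ U.comap X) :
    ∃ f : ℕ → ℕ, (∀ i ∈ Λ, f i ≤ i) ∧ ∑ i ∈ Λ, f i = finrank K U ∧
      (dR X U) ^ 2 = c ^ (finrank K U) * (q : K) ^ (∑ i ∈ Λ, f i * (i - f i)) ∧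
      ((∀ i ∈ Λ, f i = 0 ∨ f i = i) → 0 < finrank K U → ∃ u ∈ U, ∃ v ∈ U, b u v ≠ 0) := by
  classical
  set M : Module.End K V := t - 1 with hM
  have hinj : Function.Injective X := by
    rw [injective_iff_map_eq_zero]
    intro v hv
    apply hb
    intro u
    have := hX u v
    rw [hv, map_zero] at this
    exact (mul_eq_zero.mp this.symm).resolve_left hc
  -- the length of the filtration
  set L : ℕ := ∑ i ∈ Λ, i with hL
  have hLi : ∀ i ∈ Λ, i ≤ L := fun i hi => Finset.single_le_sum (f := fun i => i)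
    (fun _ _ => Nat.zero_le _) hi
  have hML : M ^ L = 0 := by
    have h1 : ∑ i ∈ Λ, (i - L) = 0 := by
      apply Finset.sum_eq_zero
      intro i hi
      have := hLi i hi
      omega
    have h2 := hr L
    rw [h1, Submodule.finrank_eq_zero, LinearMap.range_eq_bot] at h2
    exact h2
  obtain ⟨G, G', hF⟩ := geo t X q hXt hq hinj ⟨L, hML⟩
  rw [← hM] at hF
  have hUM : ∀ u ∈ U, M u ∈ U := by
    intro u hu
    rw [hM, LinearMap.sub_apply, Module.End.one_apply]
    exact U.sub_mem (hUt u hu) hu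
  -- one step
  have hstep : ∀ j i : ℕ, 1 ≤ j → j ≤ i →
      (¬ jmp M U j i → dR X (U ⊓ ww M j i) = dR X (U ⊓ ww M j (i + 1)) ∧
        finrank K ↥(U ⊓ ww M j i) = finrank K ↥(U ⊓ ww M j (i + 1))) ∧
      (jmp M U j i → i ∈ Λ ∧ (dR X (U ⊓ ww M j i)) ^ 2 =
        (dR X (U ⊓ ww M j (i + 1))) ^ 2 * (c * (q : K) ^ ((i : ℤ) + 1 - 2 * j)) ∧
        finrank K ↥(U ⊓ ww M j i) = finrank K ↥(U ⊓ ww M j (i + 1)) + 1) := by
    intro j i hj hi
    constructor
    · intro h1
      unfold jmp at h1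
      rw [not_not] at h1
      have h2 : U ⊓ ww M j i = U ⊓ ww M j (i + 1) :=
        le_antisymm (le_inf inf_le_left h1) (inf_le_inf_left U (ww_succ_le M j i hi))
      rw [h2]
      exact ⟨rfl, rfl⟩
    · intro h1
      have hiΛ : i ∈ Λ := by
        by_contra h2
        apply h1
        apply le_trans inf_le_right
        have h3 := (exists_gen M Λ hr i (le_trans hj hi)).1 h2
        conv_lhs => unfold ww
        rw [h3]
        apply sup_le _ (rr_map M j i hj hi)
        unfold ww
        exact le_sup_left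
      refine ⟨hiΛ, ?_⟩
      obtain ⟨α, hα, hα2⟩ := frm8 b t ht hb Λ hr X G G' (q : K) c hF hX i (le_trans hj hi) hiΛ
      obtain ⟨p, hp, hp2⟩ := (exists_gen M Λ hr i (le_trans hj hi)).2.1 hiΛ
      have hgen := (exists_gen M Λ hr i (le_trans hj hi)).2.2 p hp hp2
      have h2 := (dR_inf X U (ww M j (i + 1)) (ww M j i) hUX (ww_succ_le M j i hi)
        (fun v hv => hF.ww j (i + 1) v hv) (fun v hv => hF.ww j i v hv)
        ((q : K) ^ (i - j) * α) (hF.step j i hj hi α hα2) ((M ^ (i - j)) p) (by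
          intro v hv
          unfold ww at hv
          obtain ⟨x, hx, _, ⟨y, hy, rfl⟩, rfl⟩ := Submodule.mem_sup.mp hv
          obtain ⟨z, hz, s, hs, rfl⟩ := Submodule.mem_sup.mp (hgen hy)
          obtain ⟨a, rfl⟩ := Submodule.mem_span_singleton.mp hz
          rw [map_add, map_smul]
          apply Submodule.add_mem
          · apply Submodule.mem_sup_right
            unfold ww
            exact Submodule.mem_sup_left hx
          · apply Submodule.add_mem
            · apply Submodule.mem_sup_left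
              exact Submodule.smul_mem _ _ (Submodule.mem_span_singleton_self _)
            · apply Submodule.mem_sup_right
              exact rr_map M j i hj hi ⟨s, hs, rfl⟩)).2 h1
      refine ⟨?_, h2.2⟩
      rw [h2.1, mul_pow]
      congr 1
      have h3 : α ^ 2 = c * (q : K) ^ (-((i : ℤ) - 1)) := by
        rw [← hα, mul_assoc, ← zpow_natCast (q : K) (i - 1), ← zpow_add₀ hq]
        have h4 : ((i - 1 : ℕ) : ℤ) + -((i : ℤ) - 1) = 0 := by
          have : 1 ≤ i := le_trans hj hi
          push_cast [Nat.cast_sub this]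
          ring
        rw [h4, zpow_zero, mul_one]
      rw [mul_pow, h3, ← mul_assoc, mul_comm (((q : K) ^ (i - j)) ^ 2) c, mul_assoc, ← pow_mul,
        ← zpow_natCast (q : K) ((i - j) * 2), ← zpow_add₀ hq]
      congr 2
      push_cast [Nat.cast_sub hi]
      ring
  -- the weights
  set wt : ℕ → ℕ → K := fun j i => if jmp M U j i then c * (q : K) ^ ((i : ℤ) + 1 - 2 * j) else 1
    with hwt
  set ct : ℕ → ℕ → ℕ := fun j i => if jmp M U j i then 1 else 0 with hct
  have hstep2 : ∀ j i : ℕ, 1 ≤ j → j ≤ i →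
      (dR X (U ⊓ ww M j i)) ^ 2 = (dR X (U ⊓ ww M j (i + 1))) ^ 2 * wt j i ∧
      finrank K ↥(U ⊓ ww M j i) = finrank K ↥(U ⊓ ww M j (i + 1)) + ct j i := by
    intro j i hj hi
    simp only [hwt, hct]
    by_cases h1 : jmp M U j i
    · rw [if_pos h1, if_pos h1]
      exact ((hstep j i hj hi).2 h1).2
    · rw [if_neg h1, if_neg h1, ((hstep j i hj hi).1 h1).1, ((hstep j i hj hi).1 h1).2]
      exact ⟨by ring, by ring⟩
  -- one row
  have hrow : ∀ j : ℕ, 1 ≤ j → j ≤ L → ∀ d : ℕ, d ≤ 2 * L - j →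
      (dR X (U ⊓ ww M j (2 * L - d))) ^ 2 =
        (dR X (U ⊓ kr M (j - 1))) ^ 2 * ∏ i ∈ Finset.Ico (2 * L - d) (2 * L), wt j i ∧
      finrank K ↥(U ⊓ ww M j (2 * L - d)) =
        finrank K ↥(U ⊓ kr M (j - 1)) + ∑ i ∈ Finset.Ico (2 * L - d) (2 * L), ct j i := by
    intro j hj hjL d
    induction d with
    | zero =>
      intro _
      rw [Nat.sub_zero, ww_top M j (2 * L) L hML (by omega), Finset.Ico_self, Finset.prod_empty,
        Finset.sum_empty]
      exact ⟨by ring, rfl⟩
    | succ d ih =>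
      intro hd
      have h1 := ih (by omega)
      have h2 := hstep2 j (2 * L - (d + 1)) hj (by omega)
      have h3 : 2 * L - (d + 1) + 1 = 2 * L - d := by omega
      rw [h3] at h2
      rw [h2.1, h2.2, h1.1, h1.2]
      have h4 : Finset.Ico (2 * L - (d + 1)) (2 * L) =
          insert (2 * L - (d + 1)) (Finset.Ico (2 * L - d) (2 * L)) := by
        rw [← h3]
        exact (Finset.insert_Ico_add_one_left_eq_Ico (by omega)).symm
      have h5 : 2 * L - (d + 1) ∉ Finset.Ico (2 * L - d) (2 * L) := by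
        rw [Finset.mem_Ico]
        omega
      rw [h4, Finset.prod_insert h5, Finset.sum_insert h5]
      exact ⟨by ring, by ring⟩
  have hkr : ∀ j : ℕ, j ≤ L →
      (dR X (U ⊓ kr M j)) ^ 2 = ∏ j' ∈ Finset.Icc 1 j, ∏ i ∈ Finset.Ico j' (2 * L), wt j' i ∧
      finrank K ↥(U ⊓ kr M j) = ∑ j' ∈ Finset.Icc 1 j, ∑ i ∈ Finset.Ico j' (2 * L), ct j' i := by
    intro j
    induction j with
    | zero =>
      intro _
      have h1 : kr M 0 = ⊥ := by
        unfold kr
        rw [pow_zero]
        exact LinearMap.ker_id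
      rw [h1, inf_bot_eq, dR_bot, finrank_bot]
      simp
    | succ j ih =>
      intro hj
      have h1 := ih (by omega)
      have h2 := hrow (j + 1) (by omega) hj (2 * L - (j + 1)) le_rfl
      have h3 : 2 * L - (2 * L - (j + 1)) = j + 1 := by omega
      rw [h3, ww_self, Nat.add_sub_cancel, h1.1, h1.2] at h2
      rw [Finset.prod_Icc_succ_top (by omega), Finset.sum_Icc_succ_top (by omega)]
      exact h2
  have hall := hkr L le_rfl
  have htop : kr M L = ⊤ := by
    unfold kr
    rw [hML]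
    exact LinearMap.ker_zero
  rw [htop, inf_top_eq] at hall
  -- reindex
  have hjL : ∀ j i : ℕ, 1 ≤ j → j ≤ i → jmp M U j i → i ∈ Λ := fun j i hj hi h =>
    ((hstep j i hj hi).2 h).1
  have hre : ∀ j ∈ Finset.Icc 1 L, (∏ i ∈ Finset.Ico j (2 * L), wt j i =
      ∏ i ∈ Λ.filter (fun i => j ≤ i), wt j i) ∧ (∑ i ∈ Finset.Ico j (2 * L), ct j i =
      ∑ i ∈ Λ.filter (fun i => j ≤ i), ct j i) := by
    intro j hj
    rw [Finset.mem_Icc] at hj
    have hsub : Λ.filter (fun i => j ≤ i) ⊆ Finset.Ico j (2 * L) := by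
      intro i hi
      rw [Finset.mem_filter] at hi
      rw [Finset.mem_Ico]
      have := hLi i hi.1
      omega
    have hno : ∀ i ∈ Finset.Ico j (2 * L), i ∉ Λ.filter (fun i => j ≤ i) → ¬ jmp M U j i := by
      intro i hi hi2 h
      rw [Finset.mem_Ico] at hi
      apply hi2
      rw [Finset.mem_filter]
      exact ⟨hjL j i hj.1 hi.1 h, hi.1⟩
    constructor
    · symm
      apply Finset.prod_subset hsub
      intro i hi hi2
      simp only [hwt]
      rw [if_neg (hno i hi hi2)]
    · symm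
      apply Finset.sum_subset hsub
      intro i hi hi2
      simp only [hct]
      rw [if_neg (hno i hi hi2)]
  have hcomm : ∀ x y : ℕ, x ∈ Finset.Icc 1 L ∧ y ∈ Λ.filter (fun i => x ≤ i) ↔
      x ∈ Finset.Icc 1 y ∧ y ∈ Λ := by
    intro x y
    rw [Finset.mem_Icc, Finset.mem_filter, Finset.mem_Icc]
    constructor
    · rintro ⟨⟨h1, h2⟩, h3, h4⟩
      exact ⟨⟨h1, h4⟩, h3⟩
    · rintro ⟨⟨h1, h2⟩, h3⟩
      exact ⟨⟨h1, le_trans h2 (hLi y h3)⟩, h3, h2⟩
  have hP : (dR X U) ^ 2 = ∏ i ∈ Λ, ∏ j ∈ Finset.Icc 1 i, wt j i := by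
    rw [hall.1, Finset.prod_congr rfl (fun j hj => (hre j hj).1)]
    exact Finset.prod_comm' hcomm
  have hS : finrank K U = ∑ i ∈ Λ, ∑ j ∈ Finset.Icc 1 i, ct j i := by
    rw [hall.2, Finset.sum_congr rfl (fun j hj => (hre j hj).2)]
    exact Finset.sum_comm' hcomm
  -- the function f
  have hdown : ∀ i j : ℕ, 1 ≤ j → j + 1 ≤ i → jmp M U (j + 1) i → jmp M U j i := by
    intro i j hj hi h1 h2
    apply h1
    intro u hu
    have h3 := ww_map M j i hj hi u hu.2
    exact h3.2 (h2 ⟨hUM u hu.1, h3.1⟩)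
  set f : ℕ → ℕ := fun i => ((Finset.Icc 1 i).filter (fun j => jmp M U j i)).card with hf
  have hfI : ∀ i, (Finset.Icc 1 i).filter (fun j => jmp M U j i) = Finset.Icc 1 (f i) := fun i =>
    down_card i (fun j => jmp M U j i) (hdown i)
  have hfi : ∀ i, f i ≤ i := by
    intro i
    have h1 := Finset.card_filter_le (Finset.Icc 1 i) (fun j => jmp M U j i)
    rw [Nat.card_Icc, Nat.add_sub_cancel] at h1
    exact h1
  have hfS : ∑ i ∈ Λ, f i = finrank K U := by
    rw [hS]
    apply Finset.sum_congr rfl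
    intro i _
    simp only [hf, hct]
    rw [Finset.card_filter]
  refine ⟨f, fun i _ => hfi i, hfS, ?_, ?_⟩
  · rw [hP, ← hfS, ← Finset.prod_pow_eq_pow_sum, ← Finset.prod_pow_eq_pow_sum,
      ← Finset.prod_mul_distrib]
    apply Finset.prod_congr rfl
    intro i _
    rw [← prod_weights c (q : K) hq i (f i) (hfi i), ← hfI i, Finset.prod_filter]
  · intro h1 h2
    rw [← hfS] at h2
    obtain ⟨i, hi, hi2⟩ : ∃ i ∈ Λ, f i ≠ 0 := by
      by_contra hcon
      push Not at hcon
      rw [Finset.sum_eq_zero hcon] at h2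
      exact lt_irrefl 0 h2
    have h3 : f i = i := (h1 i hi).resolve_left hi2
    have hi1 : 1 ≤ i := by
      rw [← h3]
      exact Nat.one_le_iff_ne_zero.mpr hi2
    have h4 : jmp M U i i := by
      have h5 : i ∈ (Finset.Icc 1 i).filter (fun j => jmp M U j i) := by
        rw [hfI i, h3, Finset.mem_Icc]
        exact ⟨hi1, le_rfl⟩
      exact (Finset.mem_filter.mp h5).2
    unfold jmp at h4
    obtain ⟨u, hu, hu2⟩ := SetLike.not_le_iff_exists.mp h4
    rw [ww_self] at hu
    have h5 : ww M i (i + 1) = rr M i := by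
      unfold ww rr
      rw [show i + 1 - i = 1 by omega, pow_one]
    rw [h5] at hu2
    refine ⟨u, hu.1, (M ^ (i - 1)) u, ?_, frm7 b t ht hb Λ hr i hi1 u hu.2 hu2⟩
    have h6 : ∀ k : ℕ, (M ^ k) u ∈ U := by
      intro k
      induction k with
      | zero => exact hu.1
      | succ k ih =>
        rw [pow_succ', Module.End.mul_apply]
        exact hUM _ ih
    exact h6 _

end MT
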